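import Pool.Agent.H18C.CutPP

/-!
# The cut vertex step of the package, final part
-/

set_option autoImplicit false

namespace Pool.Agent.H18C

open List Pool.Agent.TF82 Pool.Agent.TFC Pool.Agent.TFB Pool.Agent.EG31 Pool.Agent.H62P
  Pool.Agent.H36C Pool.Agent.H72N

universe u

set_option linter.unusedSectionVars false
set_option linter.unusedVariables false

/-- both cut steps -/
theorem cut_pkg (V : Type u) [DecidableEq V] (G : SimpleGraph V) [DecidableRel G.Adj]
    (U W : Finset V) (b f : ℕ) (z : V) (hK : Kb G U W b) (hf : MinCov G U W f) (hz : z ∈ U)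
    (hzc : ¬ Conn1 G (U.erase z)) (ih : IHP G U.card) : ∃ I, Pkg G U W b f I := by
  have hW := hK.sub
  have hconn := hK.con
  have hC := hK.cw
  have hCg := kb_cwg hK
  have hfp := hK.pos hf
  obtain ⟨k, rfl⟩ : ∃ k, f = k + 1 := ⟨f - 1, by omega⟩
  have hk : ¬ CovW G U W k := hf.2 k (by omega)
  -- two sides
  obtain ⟨x₀, hx₀⟩ : (U.erase z).Nonempty := by
    by_contra h
    rw [Finset.not_nonempty_iff_eq_empty] at h
    apply hzc
    rw [h]
    intro a ha
    simp at ha
  obtain ⟨A, hxA, hA⟩ := exists_part (G := G) hz hx₀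
  obtain ⟨B, hB⟩ : ∃ B, B = (U.erase z) \ A := ⟨_, rfl⟩
  have hAs : Side G U z A := hA.side
  have hBs : Side G U z B := hB ▸ hA.rest
  have hAB : Disjoint A B := by
    rw [hB]
    exact Finset.disjoint_sdiff
  have hzA : z ∉ A := hA.znC
  have hzB : z ∉ B := hBs.znC
  have hall : ∀ x ∈ U, x = z ∨ x ∈ A ∨ x ∈ B := by
    intro x hx
    by_cases h : x = z
    · exact Or.inl h
    · by_cases h' : x ∈ A
      · exact Or.inr (Or.inl h')
      · right; right
        rw [hB]
        exact Finset.mem_sdiff.2 ⟨Finset.mem_erase.2 ⟨h, hx⟩, h'⟩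
  have hBne : B.Nonempty := by
    by_contra hcon
    rw [Finset.not_nonempty_iff_eq_empty] at hcon
    apply hzc
    have h1 : U.erase z = A := by
      apply Finset.Subset.antisymm _ hA.sub
      intro y hy
      rcases hall y (Finset.mem_of_mem_erase hy) with h3 | h3 | h3
      · exact absurd h3 (Finset.mem_erase.1 hy).1
      · exact h3
      · rw [hcon] at h3
        simp at h3
    rw [h1]
    exact hA.conn
  obtain ⟨b₀, hb₀⟩ := hBne
  have hAU := hAs.subH
  have hBU := hBs.subH
  have hno : ∀ a ∈ A, ∀ b ∈ B, ¬ G.Adj a b := by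
    intro a ha b hb hab
    rcases hA.cl a ha b (hBU hb) hab with h1 | h1
    · exact Finset.disjoint_left.1 hAB h1 hb
    · exact hzB (h1 ▸ hb)
  have hcU : U.card = A.card + B.card + 1 := by
    have : U = insert z (A ∪ B) := by
      ext x
      rw [Finset.mem_insert, Finset.mem_union]
      constructor
      · exact hall x
      · rintro (rfl | h | h)
        · exact hz
        · exact hAU h
        · exact hBU h
    rw [this, Finset.card_insert_of_notMem, Finset.card_union_of_disjoint hAB]
    rw [Finset.mem_union]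
    push Not
    exact ⟨hzA, hzB⟩
  have hAp : 1 ≤ A.card := Finset.card_pos.2 ⟨x₀, hxA⟩
  have hBp : 1 ≤ B.card := Finset.card_pos.2 ⟨b₀, hb₀⟩
  have hbA : b₀ ∉ insert z A := by
    intro h
    rcases Finset.mem_insert.1 h with h | h
    · exact hzB (h ▸ hb₀)
    · exact Finset.disjoint_left.1 hAB h hb₀
  have hxB : x₀ ∉ insert z B := by
    intro h
    rcases Finset.mem_insert.1 h with h | h
    · exact hzA (h ▸ hxA)
    · exact Finset.disjoint_left.1 hAB hxA h
  have hx₀U : x₀ ∈ U := hAU hxA
  have hCb := cwb_of_cw hC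
  have hCA1 : CW G (insert z A) (insert z (W ∩ A)) := cw_of_cwb (hAs.cwb hW hCb (hBU hb₀) hbA)
  have hCB1 : CW G (insert z B) (insert z (W ∩ B)) := cw_of_cwb (hBs.cwb hW hCb hx₀U hxB)
  have hCA0 : CW G A (W ∩ A) := hAs.cw0 hW hC (hBU hb₀) hbA
  have hCB0 : CW G B (W ∩ B) := hBs.cw0 hW hC hx₀U hxB
  have hsA1 : insert z (W ∩ A) ⊆ insert z A :=
    Finset.insert_subset_insert _ Finset.inter_subset_right
  have hsB1 : insert z (W ∩ B) ⊆ insert z B :=
    Finset.insert_subset_insert _ Finset.inter_subset_right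
  obtain ⟨a1, ha1, ha1'⟩ := exists_min_cov hsA1 hCA1
  obtain ⟨b1, hb1, hb1'⟩ := exists_min_cov hsB1 hCB1
  obtain ⟨a0, ha0, ha0'⟩ := exists_min_cov Finset.inter_subset_right hCA0
  obtain ⟨b0, hb0, hb0'⟩ := exists_min_cov Finset.inter_subset_right hCB0
  have hk1 : k < a1 + b0 := by
    by_contra h
    push Not at h
    exact hk ((glue hW hC hz hAU hBU (by rw [Finset.disjoint_insert_left]; exact ⟨hzB, hAB⟩)
      hall ha1 hb0).mono h)
  have hk2 : k < b1 + a0 := by
    by_contra h
    push Not at h
    exact hk ((glue hW hC hz hBU hAU (by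
      rw [Finset.disjoint_insert_left]; exact ⟨hzA, hAB.symm⟩)
      (fun x hx => by rcases hall x hx with h | h | h <;> tauto) hb1 ha0).mono h)
  have hNc : ∀ N ⊆ U, N.card ≤ (N ∩ A).card + (N ∩ B).card + 1 := by
    intro N hN
    have : N ⊆ insert z ((N ∩ A) ∪ (N ∩ B)) := by
      intro x hx
      rw [Finset.mem_insert, Finset.mem_union, Finset.mem_inter, Finset.mem_inter]
      rcases hall x (hN hx) with h | h | h
      · exact Or.inl h
      · exact Or.inr (Or.inl ⟨hx, h⟩)
      · exact Or.inr (Or.inr ⟨hx, h⟩)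
    refine (Finset.card_le_card this).trans ((Finset.card_insert_le _ _).trans ?_)
    exact Nat.succ_le_succ (Finset.card_union_le _ _)
  -- optional vertices of the sides
  have hWA : (W ∩ A).card + (W \ A).card = W.card := Finset.card_inter_add_card_sdiff _ _
  have hWB : (W ∩ B).card + (W \ B).card = W.card := Finset.card_inter_add_card_sdiff _ _
  have hWAB : (W ∩ A).card ≤ (W \ B).card := by
    apply Finset.card_le_card
    intro y hy
    have hy' := Finset.mem_inter.1 hy
    exact Finset.mem_sdiff.2 ⟨hy'.1, fun h => Finset.disjoint_left.1 hAB hy'.2 h⟩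
  -- outside sets of good vertices
  have outE : ∀ X Y F : Finset V, X ∪ Y ⊆ U → Disjoint X Y → z ∉ Y → F ⊆ Y →
      (∀ v ∈ F, Good G U W v) → F ⊆ U \ W ∧ Disjoint F (insert z X) := by
    intro X Y F hXY hd hzY hFY hFg
    refine ⟨fun y hy => Finset.mem_sdiff.2 ⟨(hFg y hy).mem, (hFg y hy).nS⟩, ?_⟩
    rw [Finset.disjoint_left]
    intro y hy hyX
    rcases Finset.mem_insert.1 hyX with h | h
    · exact hzY (h ▸ hFY hy)
    · exact Finset.disjoint_left.1 hd h (hFY hy)
  have hABU : A ∪ B ⊆ U := Finset.union_subset hAU hBU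
  have hBAU : B ∪ A ⊆ U := Finset.union_subset hBU hAU
  by_cases hhelp : a1 < a0 ∧ b1 < b0
  · -- both sides are helped
    obtain ⟨EA, g1, g2, g3, g4, -⟩ := sideJ (ihp_bp ih a0) hW hC hconn (hBU hb₀) A.card A le_rfl
      hAs (by omega) hbA a0 le_rfl ha0'
    obtain ⟨EB, e1, e2, e3, e4, -⟩ := sideJ (ihp_bp ih b0) hW hC hconn hx₀U B.card B le_rfl
      hBs (by omega) hxB b0 le_rfl hb0'
    obtain ⟨o1, o2⟩ := outE A B EB hABU hAB hzB e1 e2
    obtain ⟨p1, p2⟩ := outE B A EA hBAU hAB.symm hzA g1 g2
    obtain ⟨I, i1, i2, i3, i4, i5, i6⟩ := compJP ih hW hC hCg hconn hA (hBU hb₀) hbA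
      (m := min a0 (k + 1)) o1 e3 o2 (by omega) (fun l hl => ha0' l (by omega))
    obtain ⟨J, j1, j2, j3, j4, j5, j6⟩ := sideJP ih hW hC hCg hconn hx₀U B.card B EA le_rfl hBs
      hxB p1 g3 p2 (by omega) (k + 2 - min a0 (k + 1)) (fun l hl => hb0' l (by omega))
    have hIJ : Disjoint I J :=
      Finset.disjoint_of_subset_left i1 (Finset.disjoint_of_subset_right j1 hAB)
    have hgood : ∀ v ∈ I ∪ J, Good G U W v := by
      intro x hx
      rcases Finset.mem_union.1 hx with h | h
      · exact i2 x h
      · exact j2 x h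
    have hIJU : I ∪ J ⊆ U \ W := fun x hx =>
      Finset.mem_sdiff.2 ⟨(hgood x hx).mem, (hgood x hx).nS⟩
    have hind := indep_union i3 j3 i1 j1 hno
    have hcIJ : (I ∪ J).card = k + 2 := by
      rw [Finset.card_union_of_disjoint hIJ]
      omega
    have hs3 := Finset.sum_union (f := fun v => dU G U v) hIJ
    obtain ⟨v, hv⟩ : I.Nonempty := Finset.card_pos.1 (by omega)
    have hvJ : v ∉ J := fun h => Finset.disjoint_left.1 hIJ hv h
    have h1 := hC (I ∪ J) hIJU hind v (Finset.mem_union_left _ hv)
    have h3 := Finset.add_sum_erase I (fun v => dU G U v) hv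
    have h4 := Finset.card_erase_of_mem hv
    have hIe : I.erase v ⊆ I := Finset.erase_subset _ _
    have hIJ' : Disjoint (I.erase v) J := Finset.disjoint_of_subset_left hIe hIJ
    have hs4 := Finset.sum_union (f := fun v => dU G U v) hIJ'
    have hsub : I.erase v ∪ J ⊆ I ∪ J := Finset.union_subset_union hIe (Finset.Subset.refl _)
    have i6' : Pc G U z A (I.erase v) (b + EB.card + (W \ A).card) (min (W ∩ A).card 1) :=
      ⟨fun M hM => i6.q1 M (hM.trans hIe), fun M hM M' hM' => i6.q2 M (hM.trans hIe) M'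
        (hM'.trans hIe)⟩
    have hpp : PP G U W b (I.erase v ∪ J) := PP.of_sides i6' j6 hAs hBs hAB (hIe.trans i1) j1
      (by omega) (by omega) (Or.inr (by omega)) (by omega)
    refine ⟨I.erase v ∪ J, fun x hx => hgood x (hsub hx),
      fun a ha c hc => hind (hsub ha) (hsub hc), ?_, ?_, hpp.to1, hpp.to2, ?_⟩
    · rw [Finset.card_union_of_disjoint hIJ', h4]
      omega
    · intro N hN hnear
      have e1 := i5 N hN hnear
      have e2 := j5 N hN hnear
      have e3 := hNc N hN
      omega
    · -- the core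
      have hneA : (A \ (W ∩ A)).Nonempty := by
        by_contra hcon
        apply ha0' 0 (by omega)
        exact ⟨[], by simp, ⟨by simp, by simp⟩, by simp, fun x hx => absurd ⟨x, hx⟩ hcon⟩
      have h2 := two_nbrs hzA ha1 (ha0' a1 hhelp.1)
      have hKA : Kb G A (W ∩ A) (b + EB.card + (W \ A).card - 1) :=
        mk_kb Finset.inter_subset_right hA.conn hneA hCA0
          (cwg_part0 hA hconn hCg h2 o1 e3 o2 (by omega))
      obtain ⟨I', hI'⟩ := ih A (W ∩ A) _ a0 (by omega) hKA ⟨ha0, ha0'⟩
      obtain ⟨D, d1, d2, d3⟩ := hI'.co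
      refine ⟨D, d1.trans hAU, d2, fun x hx x' hx' hxx => Lnk.mono (d3 x hx x' hx' hxx) (by omega)⟩
  · have hk3 : k < a1 + b1 := by
      by_contra h
      push Not at h
      apply hhelp
      constructor <;> omega
    -- outside sets
    obtain ⟨EA, g1, g2, g3, g4, -⟩ := pieceZ (ihp_bp ih a1) hconn hAs (by omega) hCA1 le_rfl ha1'
    obtain ⟨EB, e1, e2, e3, e4, -⟩ := pieceZ (ihp_bp ih b1) hconn hBs (by omega) hCB1 le_rfl hb1'
    obtain ⟨o1, o2⟩ := outE A B EB hABU hAB hzB e1 e2
    obtain ⟨p1, p2⟩ := outE B A EA hBAU hAB.symm hzA g1 g2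
    have hB0 : b1 = 0 → B ⊆ W := by
      intro h0 y hy
      by_contra hyW
      obtain ⟨L, l1, l2, l3, l4⟩ := h0 ▸ hb1
      have hL : L = [] := by
        rcases L with _ | ⟨D, L⟩
        · rfl
        · simp at l1
      have := l4 y (by
        rw [Finset.mem_sdiff, Finset.mem_insert, Finset.mem_insert, Finset.mem_inter]
        refine ⟨Or.inr hy, ?_⟩
        push Not
        exact ⟨fun h => hzB (h ▸ hy), fun h => absurd h hyW⟩)
      rw [hL] at this
      simp at this
    have hA0 : a1 = 0 → A ⊆ W := by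
      intro h0 y hy
      by_contra hyW
      obtain ⟨L, l1, l2, l3, l4⟩ := h0 ▸ ha1
      have hL : L = [] := by
        rcases L with _ | ⟨D, L⟩
        · rfl
        · simp at l1
      have := l4 y (by
        rw [Finset.mem_sdiff, Finset.mem_insert, Finset.mem_insert, Finset.mem_inter]
        refine ⟨Or.inr hy, ?_⟩
        push Not
        exact ⟨fun h => hzA (h ▸ hy), fun h => absurd h hyW⟩)
      rw [hL] at this
      simp at this
    have hB0' : 1 ≤ b1 + (W \ A).card := by
      by_contra h
      have h0 : b1 = 0 := by omega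
      have : b₀ ∈ W \ A := Finset.mem_sdiff.2 ⟨hB0 h0 hb₀, fun h => Finset.disjoint_left.1 hAB h hb₀⟩
      have := Finset.card_pos.2 ⟨b₀, this⟩
      omega
    have hA0' : 1 ≤ a1 + (W \ B).card := by
      by_contra h
      have h0 : a1 = 0 := by omega
      have : x₀ ∈ W \ B := Finset.mem_sdiff.2 ⟨hA0 h0 hxA, fun h => Finset.disjoint_left.1 hAB hxA h⟩
      have := Finset.card_pos.2 ⟨x₀, this⟩
      omega
    have hgA : CWg G (insert z A) (insert z (W ∩ A)) (b + EB.card + (W \ A).card - 1) :=
      cwg_side hAs hconn hCg o1 e3 o2 (by omega)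
    have hgB : CWg G (insert z B) (insert z (W ∩ B)) (b + EA.card + (W \ B).card - 1) :=
      cwg_side hBs hconn hCg p1 g3 p2 (by omega)
    obtain ⟨I, i1, i2, i3, i4, i5, i6⟩ := pieceZP ih hconn hAs (by omega) hCA1 hgA
      (m := min a1 (k + 1)) (fun l hl => ha1' l (by omega))
    obtain ⟨J, j1, j2, j3, j4, j5, j6⟩ := pieceZP ih hconn hBs (by omega) hCB1 hgB
      (m := k + 1 - min a1 (k + 1)) (fun l hl => hb1' l (by omega))
    have hIJ : Disjoint I J :=
      Finset.disjoint_of_subset_left i1 (Finset.disjoint_of_subset_right j1 hAB)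
    have hpp : PP G U W b (I ∪ J) := PP.of_sides i6 j6 hAs hBs hAB i1 j1
      (by omega) (by omega) (by omega) (by omega)
    refine ⟨I ∪ J, ?_, indep_union i3 j3 i1 j1 hno, ?_, ?_, hpp.to1, hpp.to2, ?_⟩
    · intro x hx
      rcases Finset.mem_union.1 hx with h | h
      · exact i2 x h
      · exact j2 x h
    · rw [Finset.card_union_of_disjoint hIJ]; omega
    · intro N hN hnear
      rw [Finset.sum_union hIJ]
      have ei := i5 ∅ (by simp) (by simp)
      have ej := j5 ∅ (by simp) (by simp)
      simp only [Finset.card_empty] at ei ej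
      by_cases hNA : N ⊆ insert z A
      · have := i5 N hNA (fun x hx y hy => near_in_side hAs hconn (hNA hx) (hNA hy)
          (hnear x hx y hy))
        omega
      by_cases hNB : N ⊆ insert z B
      · have := j5 N hNB (fun x hx y hy => near_in_side hBs hconn (hNB hx) (hNB hy)
          (hnear x hx y hy))
        omega
      have e1 := pieceN hconn hAs i5 hN hnear (Finset.not_subset.1 hNA)
      have e2 := pieceN hconn hBs j5 hN hnear (Finset.not_subset.1 hNB)
      have e3 := hNc N hN
      omega
    · -- the core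
      have core : ∀ (X : Finset V) (x1 e : ℕ), Side G U z X → X.card + 1 < U.card →
          CW G (insert z X) (insert z (W ∩ X)) →
          CWg G (insert z X) (insert z (W ∩ X)) (b + e + (W \ X).card - 1) →
          MinCov G (insert z X) (insert z (W ∩ X)) x1 → 1 ≤ e + (W \ X).card →
          k + 1 ≤ x1 + e → (X \ W).Nonempty → min 1 W.card ≤ (W \ X).card →
          ∃ D ⊆ U, 2 ≤ D.card ∧ ∀ x ∈ D, ∀ x' ∈ D, x ≠ x' →
            Pth G D x x' (k + 1 + b + 1 + min 1 W.card) := by
        intro X x1 e hX hXn hCX hgX hmX h1e hke hXne hs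
        have hcX : (insert z X).card = X.card + 1 := Finset.card_insert_of_notMem hX.znC
        have hne' : (insert z X \ insert z (W ∩ X)).Nonempty := by
          obtain ⟨y, hy⟩ := hXne
          have hy' := Finset.mem_sdiff.1 hy
          refine ⟨y, Finset.mem_sdiff.2 ⟨Finset.mem_insert_of_mem hy'.1, fun h => ?_⟩⟩
          rcases Finset.mem_insert.1 h with h | h
          · exact hX.znC (h ▸ hy'.1)
          · exact hy'.2 (Finset.mem_inter.1 h).1
        have hKX := mk_kb (Finset.insert_subset_insert _ Finset.inter_subset_right)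
          (hX.conn_ins hconn) hne' hCX hgX
        obtain ⟨I', hI'⟩ := ih _ _ _ x1 (by omega) hKX hmX
        obtain ⟨D, d1, d2, d3⟩ := hI'.co
        have hpos : 0 < (insert z (W ∩ X)).card := Finset.card_pos.2 ⟨z, Finset.mem_insert_self _ _⟩
        exact ⟨D, d1.trans hX.insH, d2,
          fun x hx x' hx' hxx => Lnk.mono (d3 x hx x' hx' hxx) (by omega)⟩
      by_cases hokA : (A \ W).Nonempty ∧ min 1 W.card ≤ (W \ A).card
      · exact core A a1 EB.card hAs (by omega) hCA1 hgA ⟨ha1, ha1'⟩ (by omega) (by omega) hokA.1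
          hokA.2
      · have hokB : (B \ W).Nonempty ∧ min 1 W.card ≤ (W \ B).card := by
          by_cases h1 : (A \ W).Nonempty
          · have h2 : ¬ min 1 W.card ≤ (W \ A).card := fun h => hokA ⟨h1, h⟩
            have h3 : (W \ A).card = 0 := by omega
            have h4 : W \ A = ∅ := Finset.card_eq_zero.1 h3
            refine ⟨⟨b₀, Finset.mem_sdiff.2 ⟨hb₀, fun h => ?_⟩⟩, by omega⟩
            have : b₀ ∈ W \ A := Finset.mem_sdiff.2
              ⟨h, fun h' => Finset.disjoint_left.1 hAB h' hb₀⟩
            rw [h4] at this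
            simp at this
          · have hAW : A ⊆ W := by
              intro y hy
              by_contra hyW
              exact h1 ⟨y, Finset.mem_sdiff.2 ⟨hy, hyW⟩⟩
            have ha10 : a1 = 0 := by
              by_contra h
              refine ha1' 0 (by omega) ⟨[], by simp, ⟨by simp, by simp⟩, by simp, ?_⟩
              intro x hx
              exfalso
              have hx' := Finset.mem_sdiff.1 hx
              rcases Finset.mem_insert.1 hx'.1 with h | h
              · exact hx'.2 (h ▸ Finset.mem_insert_self _ _)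
              · exact hx'.2 (Finset.mem_insert_of_mem (Finset.mem_inter.2 ⟨hAW h, h⟩))
            have hWx : x₀ ∈ W \ B := Finset.mem_sdiff.2
              ⟨hAW hxA, fun h => Finset.disjoint_left.1 hAB hxA h⟩
            have := Finset.card_pos.2 ⟨x₀, hWx⟩
            refine ⟨?_, by omega⟩
            by_contra hcon
            have hBW : B ⊆ W := by
              intro y hy
              by_contra hyW
              exact hcon ⟨y, Finset.mem_sdiff.2 ⟨hy, hyW⟩⟩
            have hb10 : b1 = 0 := by
              by_contra h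
              refine hb1' 0 (by omega) ⟨[], by simp, ⟨by simp, by simp⟩, by simp, ?_⟩
              intro x hx
              exfalso
              have hx' := Finset.mem_sdiff.1 hx
              rcases Finset.mem_insert.1 hx'.1 with h | h
              · exact hx'.2 (h ▸ Finset.mem_insert_self _ _)
              · exact hx'.2 (Finset.mem_insert_of_mem (Finset.mem_inter.2 ⟨hBW h, h⟩))
            omega
        exact core B b1 EA.card hBs (by omega) hCB1 hgB ⟨hb1, hb1'⟩ (by omega) (by omega) hokB.1
          hokB.2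

theorem cutStepP : CutStepP.{u} := by
  intro V _ G _ H S b f z hK hf hz hzc _ ih
  exact cut_pkg V G H S b f z hK hf hz hzc ih

theorem sideStepP : SideStepP.{u} := by
  intro V _ G _ H S b f z C hK hf hz hzc _ _ ih
  exact cut_pkg V G H S b f z hK hf hz hzc ih

end Pool.Agent.H18C
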