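import Pool.Agent.EG31.Gallai

/-!
# Clusters of a connected set, in separation form
-/

set_option autoImplicit false

namespace Pool.Agent.H18C

open List Pool.Agent.TF82 Pool.Agent.TFC Pool.Agent.EG31

universe u

set_option linter.unusedSectionVars false
set_option linter.unusedVariables false

variable {V : Type u} [DecidableEq V]

/-- a mandatory vertex which is no cut vertex -/
structure Good (G : SimpleGraph V) (H S : Finset V) (v : V) : Prop where
  mem : v ∈ H
  nS : v ∉ S
  nc : Conn1 G (H.erase v)

/-- `u` is `w` or `w` separates `v` from `u` -/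
def SepV (G : SimpleGraph V) (H : Finset V) (w v u : V) : Prop :=
  u = w ∨ ¬ Reach G (H.erase w) v u

/-- `x` and `x'` are in one cluster -/
def Near (G : SimpleGraph V) (H S : Finset V) (x x' : V) : Prop :=
  x ≠ x' → ∀ v, Good G H S v → ∃ w ∈ H, w ≠ v ∧ SepV G H w v x ∧ SepV G H w v x'

/-- surplus condition -/
def CWb (G : SimpleGraph V) [DecidableRel G.Adj] (H S : Finset V) (b : ℕ) : Prop :=
  ∀ I ⊆ H \ S, G.IsIndepSet (I : Set V) → ∀ v ∈ I, I.card + S.card + b + 1 ≤ dU G H v

/-- a component `C` of `H - z` -/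
structure Part (G : SimpleGraph V) (H : Finset V) (z : V) (C : Finset V) : Prop where
  zH : z ∈ H
  sub : C ⊆ H.erase z
  ne : C.Nonempty
  conn : Conn1 G C
  cl : ∀ w ∈ C, ∀ y ∈ H, G.Adj w y → y ∈ C ∨ y = z

theorem near_refl {G : SimpleGraph V} {H S : Finset V} (x : V) : Near G H S x x :=
  fun h => absurd rfl h

theorem near_symm {G : SimpleGraph V} {H S : Finset V} {x x' : V} (h : Near G H S x x') :
    Near G H S x' x := by
  intro hne v hv
  obtain ⟨w, h1, h2, h3, h4⟩ := h hne.symm v hv
  exact ⟨w, h1, h2, h4, h3⟩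

theorem reach_split {G : SimpleGraph V} {U : Finset V} {a b : V} (w : V) (h : Reach G U a b) :
    Reach G (U.erase w) a b ∨ Reach G U a w := by
  unfold Reach at *
  induction h with
  | refl => exact Or.inl Relation.ReflTransGen.refl
  | @tail b c hab hbc ih =>
    rcases ih with ih | ih
    · by_cases hc : c = w
      · right
        rw [← hc]
        exact Relation.ReflTransGen.tail hab hbc
      · by_cases hb : b = w
        · right
          rw [← hb]
          exact hab
        · left
          exact Relation.ReflTransGen.tail ih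
            ⟨Finset.mem_erase.2 ⟨hb, hbc.1⟩, Finset.mem_erase.2 ⟨hc, hbc.2.1⟩, hbc.2.2⟩
    · exact Or.inr ih

theorem reach_of_seg {G : SimpleGraph V} {U : Finset V} : ∀ {P : List V} {a b : V},
    Seg G P a b → (∀ z ∈ P, z ∈ U) → Reach G U a b := by
  intro P
  induction P with
  | nil =>
    intro a b h
    have := h.hd
    simp at this
  | cons p P ih =>
    intro a b h hU
    have hp : p = a := by
      have := h.hd
      simpa using this
    subst hp
    rcases P with _ | ⟨q, P⟩
    · have := h.lt
      simp at this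
      rw [← this]
      exact Relation.ReflTransGen.refl
    · have hch := h.ch
      rw [List.isChain_cons_cons] at hch
      have h2 : Seg G (q :: P) q b := ⟨hch.2, rfl, by
        have := h.lt
        rwa [List.getLast?_cons_cons] at this⟩
      exact Relation.ReflTransGen.head ⟨hU p (by simp), hU q (by simp), hch.1⟩
        (ih h2 (fun z hz => hU z (List.mem_cons_of_mem _ hz)))

theorem seg_prefix {G : SimpleGraph V} {A B : List V} {x x' u : V} (h : Seg G (A ++ u :: B) x x') :
    Seg G (A ++ [u]) x u := by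
  refine ⟨?_, ?_, by simp⟩
  · have := h.ch
    rw [show A ++ u :: B = (A ++ [u]) ++ B by simp, List.isChain_append] at this
    exact this.1
  · have := h.hd
    rcases A with _ | ⟨a, A⟩
    · simpa using this
    · simpa using this

theorem seg_suffix {G : SimpleGraph V} {A B : List V} {x x' u : V} (h : Seg G (A ++ u :: B) x x') :
    Seg G (u :: B) u x' := by
  refine ⟨?_, rfl, ?_⟩
  · have := h.ch
    rw [List.isChain_append] at this
    exact this.2.1
  · have := h.lt
    rw [List.getLast?_append] at this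
    rcases hB : (u :: B).getLast? with _ | y
    · simp at hB
    · rw [hB] at this
      simpa using this

theorem seg_of_reach {G : SimpleGraph V} {U : Finset V} {a b : V} (h : Reach G U a b)
    (ha : a ∈ U) : ∃ q, Seg G q a b ∧ q.Nodup ∧ ∀ z ∈ q, z ∈ U := by
  obtain ⟨q, h1, h2, h3, h4, h5⟩ := h.path ha
  exact ⟨q, ⟨h2, h3, h4⟩, h1, h5⟩

theorem near_trans {G : SimpleGraph V} {H S : Finset V} (hH : Conn1 G H) {x y x' : V}
    (hy : y ∈ H) (h1 : Near G H S x y) (h2 : Near G H S y x') :
    Near G H S x x' := by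
  intro hne v hv
  by_cases hxy : x = y
  · subst hxy
    exact h2 hne v hv
  by_cases hyx' : y = x'
  · subst hyx'
    exact h1 hne v hv
  obtain ⟨w1, hw1, hw1v, s1, s2⟩ := h1 hxy v hv
  obtain ⟨w2, hw2, hw2v, t1, t2⟩ := h2 hyx' v hv
  by_cases hw : w1 = w2
  · subst hw
    exact ⟨w1, hw1, hw1v, s1, t2⟩
  have key : ¬ Reach G (H.erase w1) v w2 ∨ ¬ Reach G (H.erase w2) v w1 := by
    by_contra hcon
    push Not at hcon
    obtain ⟨A, B⟩ := hcon
    obtain ⟨q, hq1, hq2, hq3⟩ := seg_of_reach (hH v hv.mem y hy) hv.mem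
    by_cases hex : ∃ u ∈ q, u = w1 ∨ u = w2
    · obtain ⟨r, u, s, rfl, hu, hs⟩ := last_split (fun u => u = w1 ∨ u = w2) q hex
      have hsuf := seg_suffix hq1
      have hyl : y ∈ u :: s := List.mem_of_getLast? hsuf.lt
      rcases hu with rfl | rfl
      · -- u = w1
        have hw2s : ∀ z ∈ u :: s, z ∈ H.erase w2 := by
          intro z hz
          refine Finset.mem_erase.2 ⟨?_, hq3 z (List.mem_append_right _ hz)⟩
          rintro rfl
          rcases List.mem_cons.1 hz with h | h
          · exact hw h.symm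
          · exact hs _ h (Or.inr rfl)
        have hr := Relation.ReflTransGen.trans B (reach_of_seg hsuf hw2s)
        rcases t1 with t1 | t1
        · exact (Finset.mem_erase.1 (hw2s y hyl)).1 t1
        · exact t1 hr
      · -- u = w2
        have hw1s : ∀ z ∈ u :: s, z ∈ H.erase w1 := by
          intro z hz
          refine Finset.mem_erase.2 ⟨?_, hq3 z (List.mem_append_right _ hz)⟩
          rintro rfl
          rcases List.mem_cons.1 hz with h | h
          · exact hw h
          · exact hs _ h (Or.inl rfl)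
        have hr := Relation.ReflTransGen.trans A (reach_of_seg hsuf hw1s)
        rcases s2 with s2 | s2
        · exact (Finset.mem_erase.1 (hw1s y hyl)).1 s2
        · exact s2 hr
    · push Not at hex
      have hyq : y ∈ q := List.mem_of_getLast? hq1.lt
      have hw1s : ∀ z ∈ q, z ∈ H.erase w1 := fun z hz =>
        Finset.mem_erase.2 ⟨(hex z hz).1, hq3 z hz⟩
      rcases s2 with s2 | s2
      · exact (hex y hyq).1 s2
      · exact s2 (reach_of_seg hq1 hw1s)
  rcases key with key | key
  · refine ⟨w1, hw1, hw1v, s1, ?_⟩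
    right
    intro hr
    rcases t2 with t2 | t2
    · rw [t2] at hr
      exact key hr
    · rcases reach_split w2 hr with h | h
      · exact t2 (h.mono (Finset.erase_subset_erase _ (Finset.erase_subset _ _)))
      · exact key h
  · refine ⟨w2, hw2, hw2v, ?_, t2⟩
    right
    intro hr
    rcases s1 with s1 | s1
    · rw [s1] at hr
      exact key hr
    · rcases reach_split w1 hr with h | h
      · exact s1 (h.mono (Finset.erase_subset_erase _ (Finset.erase_subset _ _)))
      · exact key h

/-- in a 2-connected set with a mandatory vertex distinct vertices are not near -/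
theorem near_two {G : SimpleGraph V} {H S : Finset V} (h2 : Conn2 G H) {v : V}
    (hvH : v ∈ H) (hvS : v ∉ S) {x x' : V} (hx : x ∈ H) (hx' : x' ∈ H) (hne : x ≠ x') :
    ¬ Near G H S x x' := by
  intro h
  obtain ⟨w, hw, hwv, s1, s2⟩ := h hne v ⟨hvH, hvS, h2 v hvH⟩
  have hv' : v ∈ H.erase w := Finset.mem_erase.2 ⟨fun h => hwv h.symm, hvH⟩
  by_cases hxw : x = w
  · have hx'w : x' ≠ w := fun h => hne (hxw.trans h.symm)
    rcases s2 with s2 | s2
    · exact hx'w s2
    · exact s2 (h2 w hw v hv' x' (Finset.mem_erase.2 ⟨hx'w, hx'⟩))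
  · rcases s1 with s1 | s1
    · exact hxw s1
    · exact s1 (h2 w hw v hv' x (Finset.mem_erase.2 ⟨hxw, hx⟩))

theorem exists_part {G : SimpleGraph V} {H : Finset V} {z a : V} (hz : z ∈ H)
    (ha : a ∈ H.erase z) : ∃ C, a ∈ C ∧ Part G H z C := by
  classical
  refine ⟨(H.erase z).filter fun y => Reach G (H.erase z) a y,
    Finset.mem_filter.2 ⟨ha, Relation.ReflTransGen.refl⟩, hz, Finset.filter_subset _ _,
    ⟨a, Finset.mem_filter.2 ⟨ha, Relation.ReflTransGen.refl⟩⟩, ?_, ?_⟩
  · have key : ∀ c, Reach G (H.erase z) a c →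
        Reach G ((H.erase z).filter fun y => Reach G (H.erase z) a y) a c := by
      intro c hc
      induction hc with
      | refl => exact Relation.ReflTransGen.refl
      | @tail b c hab hbc ih =>
        exact Relation.ReflTransGen.tail ih ⟨Finset.mem_filter.2 ⟨hbc.1, hab⟩,
          Finset.mem_filter.2 ⟨hbc.2.1, Relation.ReflTransGen.tail hab hbc⟩, hbc.2.2⟩
    intro c hc d hd
    exact Relation.ReflTransGen.trans (Reach.symm (key c (Finset.mem_filter.1 hc).2))
      (key d (Finset.mem_filter.1 hd).2)
  · intro w hw y hy hwy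
    rw [Finset.mem_filter] at hw
    by_cases hyz : y = z
    · exact Or.inr hyz
    · left
      have hy' : y ∈ H.erase z := Finset.mem_erase.2 ⟨hyz, hy⟩
      exact Finset.mem_filter.2 ⟨hy', comp_closed hw.1 hw.2 hy' hwy⟩

namespace Part

variable {G : SimpleGraph V} {H : Finset V} {z : V} {C : Finset V}

theorem subH (h : Part G H z C) : C ⊆ H := h.sub.trans (Finset.erase_subset _ _)

theorem znC (h : Part G H z C) : z ∉ C := fun hz => (Finset.mem_erase.1 (h.sub hz)).1 rfl

theorem insH (h : Part G H z C) : insert z C ⊆ H := by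
  intro y hy
  rcases Finset.mem_insert.1 hy with rfl | hy
  · exact h.zH
  · exact h.subH hy

theorem cross (h : Part G H z C) {P : List V} {a b : V} (hP : Seg G P a b)
    (hPH : ∀ y ∈ P, y ∈ H) (ha : a ∈ insert z C) (hb : b ∉ insert z C) : z ∈ P := by
  by_contra hz
  have hPz : ∀ y ∈ P, y ∈ H.erase z := fun y hy =>
    Finset.mem_erase.2 ⟨fun he => hz (he ▸ hy), hPH y hy⟩
  have haP : a ∈ P := List.mem_of_mem_head? hP.hd
  have haC : a ∈ C := by
    rcases Finset.mem_insert.1 ha with rfl | ha
    · exact absurd haP hz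
    · exact ha
  have hbC : b ∈ C := by
    refine closed_reach (S := H.erase z) ?_ (reach_of_seg hP hPz) haC
    intro w hw y hy hwy
    rcases h.cl w hw y (Finset.mem_of_mem_erase hy) hwy with h1 | h1
    · exact h1
    · exact absurd h1 (Finset.mem_erase.1 hy).1
  exact hb (Finset.mem_insert_of_mem hbC)

theorem path_in (h : Part G H z C) {P : List V} {a b : V} (hP : Seg G P a b) (hn : P.Nodup)
    (hPH : ∀ y ∈ P, y ∈ H) (ha : a ∈ insert z C) (hb : b ∈ insert z C) :
    ∀ y ∈ P, y ∈ insert z C := by
  intro u hu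
  by_contra hcon
  obtain ⟨A, B, rfl⟩ := List.append_of_mem hu
  have hzu : z ≠ u := fun he => hcon (he ▸ Finset.mem_insert_self _ _)
  have h1 : z ∈ A ++ [u] := h.cross (seg_prefix hP) (by
    intro y hy
    apply hPH
    simp at hy ⊢
    tauto) ha hcon
  have h2 : z ∈ (u :: B).reverse := h.cross (seg_suffix hP).rev (by
    intro y hy
    apply hPH
    simp at hy ⊢
    tauto) hb hcon
  have h1' : z ∈ A := by
    simp at h1
    tauto
  have h2' : z ∈ u :: B := List.mem_reverse.1 h2
  exact (List.nodup_append.1 hn).2.2 z h1' z h2' rfl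

/-- walks of `H - w` between vertices of `C + z` -/
theorem reach_in (h : Part G H z C) {w a b : V} (hr : Reach G (H.erase w) a b)
    (ha : a ∈ insert z C) (hb : b ∈ insert z C) (haw : a ≠ w) :
    Reach G ((insert z C).erase w) a b := by
  obtain ⟨q, h1, h2, h3⟩ := seg_of_reach hr (Finset.mem_erase.2 ⟨haw, h.insH ha⟩)
  have h4 := h.path_in h1 h2 (fun y hy => Finset.mem_of_mem_erase (h3 y hy)) ha hb
  exact reach_of_seg h1 (fun y hy => Finset.mem_erase.2 ⟨(Finset.mem_erase.1 (h3 y hy)).1, h4 y hy⟩)

theorem conn_ins (h : Part G H z C) (hH : Conn1 G H) : Conn1 G (insert z C) := by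
  intro a ha b hb
  obtain ⟨q, h1, h2, h3⟩ := seg_of_reach (hH a (h.insH ha) b (h.insH hb)) (h.insH ha)
  exact reach_of_seg h1 (h.path_in h1 h2 h3 ha hb)

/-- good vertices of `H` in `C` are good in `C + z` -/
theorem good (h : Part G H z C) {S : Finset V} {v : V} (hv : Good G H S v) (hvC : v ∈ C) :
    Good G (insert z C) (insert z (S ∩ C)) v := by
  refine ⟨Finset.mem_insert_of_mem hvC, ?_, ?_⟩
  · intro hcon
    rcases Finset.mem_insert.1 hcon with rfl | h1
    · exact h.znC hvC
    · exact hv.nS (Finset.mem_inter.1 h1).1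
  · intro a ha b hb
    rw [Finset.mem_erase] at ha hb
    exact h.reach_in (hv.nc a (Finset.mem_erase.2 ⟨ha.1, h.insH ha.2⟩) b
      (Finset.mem_erase.2 ⟨hb.1, h.insH hb.2⟩)) ha.2 hb.2 ha.1

/-- a vertex outside can reach `z` without meeting `C` -/
theorem out_reach (h : Part G H z C) (hH : Conn1 G H) {a : V} (ha : a ∈ H) (haC : a ∉ C) :
    ∃ q, Seg G q z a ∧ q.Nodup ∧ (∀ y ∈ q, y ∈ H) ∧ ∀ y ∈ q, y ∉ C := by
  obtain ⟨q, h1, h2, h3⟩ := seg_of_reach (hH z h.zH a ha) h.zH
  refine ⟨q, h1, h2, h3, ?_⟩
  intro u hu huC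
  obtain ⟨A, B, rfl⟩ := List.append_of_mem hu
  have hA : z ∈ A ++ [u] := List.mem_of_mem_head? (seg_prefix h1).hd
  have hzA : z ∈ A := by
    have hzu : z ≠ u := fun he => h.znC (he ▸ huC)
    simp at hA
    tauto
  have hzB : z ∉ u :: B := fun hz => (List.nodup_append.1 h2).2.2 z hzA z hz rfl
  have hB := seg_suffix h1
  have haC' : a ∈ C := by
    refine closed_reach (S := H.erase z) ?_ (reach_of_seg hB ?_) huC
    · intro w hw y hy hwy
      rcases h.cl w hw y (Finset.mem_of_mem_erase hy) hwy with h4 | h4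
      · exact h4
      · exact absurd h4 (Finset.mem_erase.1 hy).1
    · intro y hy
      exact Finset.mem_erase.2 ⟨fun he => hzB (he ▸ hy), h3 y (List.mem_append_right _ hy)⟩
  exact haC haC'

/-- good vertices of `C + z` in `C` are good in `H` -/
theorem good_of (h : Part G H z C) (hH : Conn1 G H) {S : Finset V} {v : V}
    (hv : Good G (insert z C) (insert z (S ∩ C)) v) (hvC : v ∈ C) : Good G H S v := by
  have hzv : z ≠ v := fun he => h.znC (he ▸ hvC)
  refine ⟨h.subH hvC, fun hS => hv.nS (Finset.mem_insert_of_mem (Finset.mem_inter.2 ⟨hS, hvC⟩)), ?_⟩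
  have key : ∀ a ∈ H.erase v, Reach G (H.erase v) z a := by
    intro a ha
    rw [Finset.mem_erase] at ha
    by_cases haC : a ∈ C
    · exact (hv.nc z (Finset.mem_erase.2 ⟨hzv, Finset.mem_insert_self _ _⟩) a
        (Finset.mem_erase.2 ⟨ha.1, Finset.mem_insert_of_mem haC⟩)).mono
        (Finset.erase_subset_erase _ h.insH)
    · obtain ⟨q, h1, h2, h3, h4⟩ := h.out_reach hH ha.2 haC
      exact reach_of_seg h1 (fun y hy => Finset.mem_erase.2
        ⟨fun he => h4 y hy (he ▸ hvC), h3 y hy⟩)
  intro a ha b hb
  exact Relation.ReflTransGen.trans (Reach.symm (key a ha)) (key b hb)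

theorem dU_eq (h : Part G H z C) [DecidableRel G.Adj] {v : V} (hv : v ∈ C) :
    dU G (insert z C) v = dU G H v := by
  unfold dU
  congr 1
  ext y
  simp only [Finset.mem_filter]
  constructor
  · rintro ⟨h1, h2⟩
    exact ⟨h.insH h1, h2⟩
  · rintro ⟨h1, h2⟩
    refine ⟨?_, h2⟩
    rcases h.cl v hv y h1 h2 with h3 | h3
    · exact Finset.mem_insert_of_mem h3
    · rw [h3]
      exact Finset.mem_insert_self _ _

theorem cwb (h : Part G H z C) [DecidableRel G.Adj] {S : Finset V} {b : ℕ}
    (hS : S ⊆ H) (hC : CWb G H S b) {u₀ : V} (hu : u₀ ∈ H) (hu' : u₀ ∉ insert z C) :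
    CWb G (insert z C) (insert z (S ∩ C)) b := by
  intro I hI hind v hv
  have hIC : ∀ y ∈ I, y ∈ C ∧ y ∉ S := by
    intro y hy
    have := hI hy
    rw [Finset.mem_sdiff] at this
    have hyz : y ≠ z := fun he => this.2 (he ▸ Finset.mem_insert_self _ _)
    have hyC : y ∈ C := by
      rcases Finset.mem_insert.1 this.1 with h1 | h1
      · exact absurd h1 hyz
      · exact h1
    exact ⟨hyC, fun hyS => this.2 (Finset.mem_insert_of_mem (Finset.mem_inter.2 ⟨hyS, hyC⟩))⟩
  rw [h.dU_eq (hIC v hv).1]
  have huC : u₀ ∉ C := fun he => hu' (Finset.mem_insert_of_mem he)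
  by_cases huS : u₀ ∈ S
  · have h1 := hC I (fun y hy => Finset.mem_sdiff.2 ⟨h.subH (hIC y hy).1, (hIC y hy).2⟩) hind v hv
    have h2 : (insert z (S ∩ C)).card ≤ S.card := by
      refine (Finset.card_insert_le _ _).trans ?_
      have : (S ∩ C).card < S.card := by
        apply Finset.card_lt_card
        refine ⟨Finset.inter_subset_left, fun hcon => ?_⟩
        exact huC (Finset.mem_inter.1 (hcon huS)).2
      omega
    omega
  · have huI : u₀ ∉ I := fun he => huC (hIC _ he).1
    have hnadj : ∀ y ∈ I, ¬ G.Adj y u₀ := by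
      intro y hy hadj
      rcases h.cl y (hIC y hy).1 u₀ hu hadj with h3 | h3
      · exact huC h3
      · exact hu' (h3 ▸ Finset.mem_insert_self _ _)
    have h1 := hC (insert u₀ I) (by
      intro y hy
      rcases Finset.mem_insert.1 hy with rfl | hy
      · exact Finset.mem_sdiff.2 ⟨hu, huS⟩
      · exact Finset.mem_sdiff.2 ⟨h.subH (hIC y hy).1, (hIC y hy).2⟩) (by
      rw [Finset.coe_insert]
      intro a ha c hc hac hadj
      rcases ha with rfl | ha
      · rcases hc with rfl | hc
        · exact hac rfl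
        · exact hnadj c hc hadj.symm
      · rcases hc with rfl | hc
        · exact hnadj a ha hadj
        · exact hind ha hc hac hadj) v (Finset.mem_insert_of_mem hv)
    rw [Finset.card_insert_of_notMem huI] at h1
    have h2 : (insert z (S ∩ C)).card ≤ S.card + 1 :=
      (Finset.card_insert_le _ _).trans (Nat.succ_le_succ (Finset.card_le_card
        Finset.inter_subset_left))
    omega

/-- separation in `C + z` gives separation in `H` -/
theorem sep_of (h : Part G H z C) {w v x : V} (hv : v ∈ C) (hwv : w ≠ v) (hx : x ∈ insert z C)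
    (hs : SepV G (insert z C) w v x) : SepV G H w v x := by
  rcases hs with hs | hs
  · exact Or.inl hs
  · right
    intro hr
    exact hs (h.reach_in hr (Finset.mem_insert_of_mem hv) hx hwv.symm)

/-- a vertex outside `C + z` is separated by `z` -/
theorem sep_out (h : Part G H z C) {v x : V} (hv : v ∈ C) (hx : x ∉ C) :
    SepV G H z v x := by
  right
  intro hr
  apply hx
  refine closed_reach (S := H.erase z) ?_ hr hv
  intro w hw y hy hwy
  rcases h.cl w hw y (Finset.mem_of_mem_erase hy) hwy with h4 | h4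
  · exact h4
  · exact absurd h4 (Finset.mem_erase.1 hy).1

/-- a vertex outside is separated from `v` by whatever separates `v` from `z` -/
theorem sep_through (h : Part G H z C) {w v x : V} (hv : v ∈ C) (hwv : w ≠ v) (hx : x ∉ insert z C)
    (hs : SepV G (insert z C) w v z) : SepV G H w v x := by
  rcases hs with hs | hs
  · rw [← hs]
    exact h.sep_out hv (fun he => hx (Finset.mem_insert_of_mem he))
  · right
    intro hr
    -- the walk meets `z`
    rcases reach_split z hr with h1 | h1
    · rcases h.sep_out hv (fun he => hx (Finset.mem_insert_of_mem he)) with h2 | h2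
      · exact hx (h2 ▸ Finset.mem_insert_self _ _)
      · exact h2 (h1.mono (by
          intro y hy
          rw [Finset.mem_erase, Finset.mem_erase] at hy
          exact Finset.mem_erase.2 ⟨hy.1, hy.2.2⟩))
    · exact hs (h.reach_in h1 (Finset.mem_insert_of_mem hv) (Finset.mem_insert_self _ _) hwv.symm)

end Part

/-- `x` in the part, `x'` outside: near in `H` implies near to `z` in the part -/
theorem near_part {G : SimpleGraph V} {H S C : Finset V} {z : V} (h : Part G H z C)
    (hH : Conn1 G H) {x x' : V} (hx : x ∈ C) (hx' : x' ∈ H) (hx'C : x' ∉ C)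
    (hn : Near G H S x x') : Near G (insert z C) (insert z (S ∩ C)) x z := by
  intro hne v hv
  have hvz : v ≠ z := fun he => hv.nS (he ▸ Finset.mem_insert_self _ _)
  have hvC : v ∈ C := by
    rcases Finset.mem_insert.1 hv.mem with h1 | h1
    · exact absurd h1 hvz
    · exact h1
  obtain ⟨w, hw, hwv, s1, s2⟩ := hn (fun he => hx'C (he ▸ hx)) v (h.good_of hH hv hvC)
  obtain ⟨q, q1, q2, q3, q4⟩ := h.out_reach hH hx' hx'C
  by_cases hwz : w = z
  · -- `z` does not separate `v` from `x`
    exfalso
    subst hwz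
    rcases s1 with s1 | s1
    · exact hne s1
    · exact s1 ((h.conn v hvC x hx).mono h.sub)
  by_cases hwC : w ∈ C
  · refine ⟨w, Finset.mem_insert_of_mem hwC, hwv, ?_, ?_⟩
    · rcases s1 with s1 | s1
      · exact Or.inl s1
      · exact Or.inr (fun hr => s1 (hr.mono (Finset.erase_subset_erase _ h.insH)))
    · right
      intro hr
      rcases s2 with s2 | s2
      · exact hx'C (s2 ▸ hwC)
      · refine s2 (Relation.ReflTransGen.trans (hr.mono (Finset.erase_subset_erase _ h.insH))
          (reach_of_seg q1 ?_))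
        intro y hy
        exact Finset.mem_erase.2 ⟨fun he => q4 y hy (he ▸ hwC), q3 y hy⟩
  · -- `w` outside the part
    exfalso
    have hwI : w ∉ insert z C := by
      intro he
      rcases Finset.mem_insert.1 he with h1 | h1
      · exact hwz h1
      · exact hwC h1
    rcases s1 with s1 | s1
    · exact hwC (s1 ▸ hx)
    · refine s1 ((h.conn v hvC x hx).mono ?_)
      intro y hy
      exact Finset.mem_erase.2 ⟨fun he => hwC (he ▸ hy), h.subH hy⟩

/-- near vertices of a part are near in the part -/
theorem near_in {G : SimpleGraph V} {H S C : Finset V} {z : V} (h : Part G H z C)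
    (hH : Conn1 G H) {x x' : V} (hx : x ∈ insert z C) (hx' : x' ∈ insert z C)
    (hn : Near G H S x x') : Near G (insert z C) (insert z (S ∩ C)) x x' := by
  intro hne v hv
  have hvz : v ≠ z := fun he => hv.nS (he ▸ Finset.mem_insert_self _ _)
  have hvC : v ∈ C := by
    rcases Finset.mem_insert.1 hv.mem with h1 | h1
    · exact absurd h1 hvz
    · exact h1
  obtain ⟨w, hw, hwv, s1, s2⟩ := hn hne v (h.good_of hH hv hvC)
  by_cases hwI : w ∈ insert z C
  · refine ⟨w, hwI, hwv, ?_, ?_⟩
    · rcases s1 with s1 | s1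
      · exact Or.inl s1
      · exact Or.inr (fun hr => s1 (hr.mono (Finset.erase_subset_erase _ h.insH)))
    · rcases s2 with s2 | s2
      · exact Or.inl s2
      · exact Or.inr (fun hr => s2 (hr.mono (Finset.erase_subset_erase _ h.insH)))
  · exfalso
    have key : ∀ y ∈ insert z C, Reach G (H.erase w) v y := fun y hy =>
      ((h.conn_ins hH) v (Finset.mem_insert_of_mem hvC) y hy).mono (by
        intro y hy
        exact Finset.mem_erase.2 ⟨fun he => hwI (he ▸ hy), h.insH hy⟩)
    rcases s1 with s1 | s1
    · exact hwI (s1 ▸ hx)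
    · exact s1 (key x hx)

/-- the 2-connected case of the link lemma -/
def Base2 (G : SimpleGraph V) [DecidableRel G.Adj] : Prop :=
  ∀ (H S : Finset V) (b : ℕ) (x x' v : V), Conn1 G H → Conn2 G H → S ⊆ H → CWb G H S b →
    v ∈ H → v ∉ S → x ∈ H → x' ∈ H → x ≠ x' →
    ∃ Q, Seg G Q x x' ∧ Q.Nodup ∧ (∀ z ∈ Q, z ∈ H) ∧ b + 3 ≤ Q.length

theorem near_link {G : SimpleGraph V} [DecidableRel G.Adj] (hB : Base2 G) : ∀ (n : ℕ)
    (H S : Finset V) (b : ℕ) (x x' : V), H.card ≤ n → Conn1 G H → S ⊆ H → CWb G H S b →
    x ∈ H → x' ∈ H → ¬ Near G H S x x' →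
    ∃ Q, Seg G Q x x' ∧ Q.Nodup ∧ (∀ z ∈ Q, z ∈ H) ∧ b + 3 ≤ Q.length := by
  intro n
  induction n with
  | zero =>
    intro H S b x x' hn hH hS hC hx hx' hnear
    have : H = ∅ := Finset.card_eq_zero.1 (Nat.le_zero.1 hn)
    rw [this] at hx
    simp at hx
  | succ n ih =>
    intro H S b x x' hn hH hS hC hx hx' hnear
    have hne : x ≠ x' := by
      rintro rfl
      exact hnear (near_refl x)
    unfold Near at hnear
    push Not at hnear
    obtain ⟨-, v, hv, hsep⟩ := hnear
    by_cases h2 : Conn2 G H
    · exact hB H S b x x' v hH h2 hS hC hv.mem hv.nS hx hx' hne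
    unfold Conn2 at h2
    push Not at h2
    obtain ⟨z, hz, hzc⟩ := h2
    have hvz : v ≠ z := fun he => hzc (he ▸ hv.nc)
    obtain ⟨C, hvC, hP⟩ := exists_part (G := G) hz (Finset.mem_erase.2 ⟨hvz, hv.mem⟩)
    -- a vertex outside
    have hout : ∃ u₀ ∈ H, u₀ ∉ insert z C := by
      by_contra hcon
      push Not at hcon
      apply hzc
      intro a ha b hb
      have h1 : H.erase z = C := by
        apply Finset.Subset.antisymm _ hP.sub
        intro y hy
        rw [Finset.mem_erase] at hy
        rcases Finset.mem_insert.1 (hcon y hy.2) with h3 | h3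
        · exact absurd h3 hy.1
        · exact h3
      rw [h1] at ha hb ⊢
      exact hP.conn a ha b hb
    obtain ⟨u₀, hu, hu'⟩ := hout
    have hcard : (insert z C).card ≤ n := by
      have : (insert z C).card < H.card := Finset.card_lt_card ⟨hP.insH, fun hcon => hu' (hcon hu)⟩
      omega
    have hC' := hP.cwb hS hC hu hu'
    have hS' : insert z (S ∩ C) ⊆ insert z C := by
      intro y hy
      rcases Finset.mem_insert.1 hy with rfl | hy
      · exact Finset.mem_insert_self _ _
      · exact Finset.mem_insert_of_mem (Finset.mem_inter.1 hy).2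
    have hgood := hP.good hv hvC
    -- one end in `C`, the other outside
    have mixed : ∀ a a' : V, a ∈ insert z C → a' ∈ H → a' ∉ insert z C →
        (∀ w ∈ H, w ≠ v → ¬ (SepV G H w v a ∧ SepV G H w v a')) →
        ∃ Q, Seg G Q a a' ∧ Q.Nodup ∧ (∀ z ∈ Q, z ∈ H) ∧ b + 3 ≤ Q.length := by
      intro a a' ha ha' ha'C hs
      have haz : a ≠ z := by
        rintro rfl
        exact hs a hz (fun he => hvz he.symm) ⟨Or.inl rfl, hP.sep_out hvC
          (fun he => ha'C (Finset.mem_insert_of_mem he))⟩
      have haC : a ∈ C := by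
        rcases Finset.mem_insert.1 ha with h1 | h1
        · exact absurd h1 haz
        · exact h1
      obtain ⟨Q, q1, q2, q3, q4⟩ := ih (insert z C) (insert z (S ∩ C)) b a z hcard
        (hP.conn_ins hH) hS' hC' ha (Finset.mem_insert_self _ _) (by
          intro hnear
          obtain ⟨w, hw, hwv, s1, s2⟩ := hnear haz v hgood
          exact hs w (hP.insH hw) hwv ⟨hP.sep_of hvC hwv ha s1, hP.sep_through hvC hwv ha'C s2⟩)
      obtain ⟨R, r1, r2, r3, r4⟩ := hP.out_reach hH ha' (fun he => ha'C (Finset.mem_insert_of_mem he))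
      rcases R with _ | ⟨r, R⟩
      · have := r1.hd
        simp at this
      have hrz : r = z := by
        have := r1.hd
        simpa using this
      subst hrz
      rcases R with _ | ⟨r', R⟩
      · have := r1.lt
        simp at this
        exact absurd (this ▸ Finset.mem_insert_self _ _) ha'C
      have hch := r1.ch
      rw [List.isChain_cons_cons] at hch
      have hR' : Seg G (r' :: R) r' a' := ⟨hch.2, rfl, by
        have := r1.lt
        rwa [List.getLast?_cons_cons] at this⟩
      refine ⟨Q ++ (r' :: R), q1.append hR' hch.1, ?_, ?_, ?_⟩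
      · rw [List.nodup_append]
        refine ⟨q2, (List.nodup_cons.1 r2).2, ?_⟩
        rintro y hy y' hy' rfl
        rcases Finset.mem_insert.1 (q3 y hy) with h1 | h1
        · rw [h1] at hy'
          exact (List.nodup_cons.1 r2).1 hy'
        · exact r4 y (List.mem_cons_of_mem _ hy') h1
      · intro y hy
        rcases List.mem_append.1 hy with h1 | h1
        · exact hP.insH (q3 y h1)
        · exact r3 y (List.mem_cons_of_mem _ h1)
      · rw [List.length_append]
        omega
    by_cases hxI : x ∈ insert z C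
    · by_cases hx'I : x' ∈ insert z C
      · obtain ⟨Q, q1, q2, q3, q4⟩ := ih (insert z C) (insert z (S ∩ C)) b x x' hcard
          (hP.conn_ins hH) hS' hC' hxI hx'I (by
            intro hnear
            obtain ⟨w, hw, hwv, s1, s2⟩ := hnear hne v hgood
            exact hsep w (hP.insH hw) hwv (hP.sep_of hvC hwv hxI s1) (hP.sep_of hvC hwv hx'I s2))
        exact ⟨Q, q1, q2, fun y hy => hP.insH (q3 y hy), q4⟩
      · exact mixed x x' hxI hx' hx'I (fun w hw hwv hs => hsep w hw hwv hs.1 hs.2)
    · by_cases hx'I : x' ∈ insert z C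
      · obtain ⟨Q, q1, q2, q3, q4⟩ := mixed x' x hx'I hx hxI
          (fun w hw hwv hs => hsep w hw hwv hs.2 hs.1)
        exact ⟨Q.reverse, q1.rev, by simpa using q2, by simpa using q3, by simpa using q4⟩
      · exfalso
        exact hsep z hz (fun he => hvz he.symm)
          (hP.sep_out hvC (fun he => hxI (Finset.mem_insert_of_mem he)))
          (hP.sep_out hvC (fun he => hx'I (Finset.mem_insert_of_mem he)))

end Pool.Agent.H18C
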