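import Pool.Agent.H18C.Side
import Pool.Agent.H62P.CutK
import Pool.Agent.H36C.NoHelp

/-!
# Theorem B+: one independent set of good vertices with a bonus for every near class
-/

set_option autoImplicit false

namespace Pool.Agent.H18C

open List Pool.Agent.TF82 Pool.Agent.TFC Pool.Agent.TFB Pool.Agent.EG31 Pool.Agent.H62P
  Pool.Agent.H36C

universe u

set_option linter.unusedSectionVars false
set_option linter.unusedVariables false

variable {V : Type u} [DecidableEq V]

/-- the statement of Theorem B+ (for `k < K`): ONE independent set of good vertices with a bonus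
for every set `N` of pairwise near vertices -/
def BP (K : ℕ) (G : SimpleGraph V) [DecidableRel G.Adj] (U W : Finset V) : Prop :=
  ∀ k, k < K → ¬ CovW G U W k → ∃ I : Finset V, (∀ v ∈ I, Good G U W v) ∧
    G.IsIndepSet (I : Set V) ∧ I.card = k + 1 ∧
    ∀ N ⊆ U, (∀ x ∈ N, ∀ y ∈ N, Near G U W x y) → ∑ v ∈ I, dU G U v + N.card ≤ U.card

theorem cwb_of_cw {G : SimpleGraph V} [DecidableRel G.Adj] {H S : Finset V} (h : CW G H S) :
    CWb G H S 0 := by
  intro I hI hind v hv
  have := h I hI hind v hv
  omega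

theorem Part.side {G : SimpleGraph V} {H : Finset V} {z : V} {C : Finset V} (h : Part G H z C) :
    Side G H z C := ⟨h.zH, h.sub, h.cl⟩

/-- the rest is a side -/
theorem Part.rest {G : SimpleGraph V} {H : Finset V} {z : V} {C : Finset V} (h : Part G H z C) :
    Side G H z ((H.erase z) \ C) := by
  refine ⟨h.zH, Finset.sdiff_subset, ?_⟩
  intro w hw y hy hwy
  rw [Finset.mem_sdiff] at hw
  by_cases hyz : y = z
  · exact Or.inr hyz
  · left
    refine Finset.mem_sdiff.2 ⟨Finset.mem_erase.2 ⟨hyz, hy⟩, fun hyC => ?_⟩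
    rcases h.cl y hyC w (Finset.mem_of_mem_erase hw.1) hwy.symm with h1 | h1
    · exact hw.2 h1
    · exact (Finset.mem_erase.1 hw.1).1 h1

theorem Side.dU_le_one {G : SimpleGraph V} [DecidableRel G.Adj] {H : Finset V} {z : V}
    {C : Finset V} (h : Side G H z C) {v : V} (hv : v ∈ C) : dU G H v ≤ dU G C v + 1 := by
  rw [← h.dU_eq hv, Finset.insert_eq, Finset.union_comm]
  refine (dU_union_le _ _ v).trans (Nat.add_le_add_left ?_ _)
  have := dU_le (G := G) {z} v
  simpa using this

/-- the surplus condition for a side without the cut vertex -/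
theorem Side.cw0 {G : SimpleGraph V} [DecidableRel G.Adj] {H S : Finset V} {z : V}
    {C : Finset V} (h : Side G H z C) (hS : S ⊆ H) (hC : CW G H S) {u₀ : V} (hu : u₀ ∈ H)
    (hu' : u₀ ∉ insert z C) : CW G C (S ∩ C) := by
  intro I hI hind v hv
  have hIC : ∀ y ∈ I, y ∈ C ∧ y ∉ S := by
    intro y hy
    have := Finset.mem_sdiff.1 (hI hy)
    exact ⟨this.1, fun hyS => this.2 (Finset.mem_inter.2 ⟨hyS, this.1⟩)⟩
  have hd := h.dU_le_one (hIC v hv).1
  have huC : u₀ ∉ C := fun he => hu' (Finset.mem_insert_of_mem he)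
  by_cases huS : u₀ ∈ S
  · have h1 := hC I (fun y hy => Finset.mem_sdiff.2 ⟨h.subH (hIC y hy).1, (hIC y hy).2⟩) hind v hv
    have : (S ∩ C).card < S.card := by
      apply Finset.card_lt_card
      refine ⟨Finset.inter_subset_left, fun hcon => ?_⟩
      exact huC (Finset.mem_inter.1 (hcon huS)).2
    omega
  · have huI : u₀ ∉ I := fun he => huC (hIC _ he).1
    have hnadj : ∀ y ∈ I, ¬ G.Adj y u₀ := by
      intro y hy hadj
      rcases h.cl y (hIC y hy).1 u₀ hu hadj with h3 | h3
      · exact huC h3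
      · exact hu' (h3 ▸ Finset.mem_insert_self _ _)
    have h1 := hC (insert u₀ I) (by
      intro y hy
      rcases Finset.mem_insert.1 hy with rfl | hy
      · exact Finset.mem_sdiff.2 ⟨hu, huS⟩
      · exact Finset.mem_sdiff.2 ⟨h.subH (hIC y hy).1, (hIC y hy).2⟩) (by
      rw [Finset.coe_insert]
      intro a ha c hc hac hadj
      rcases ha with rfl | ha
      · rcases hc with rfl | hc
        · exact hac rfl
        · exact hnadj c hc hadj.symm
      · rcases hc with rfl | hc
        · exact hnadj a ha hadj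
        · exact hind ha hc hac hadj) v (Finset.mem_insert_of_mem hv)
    rw [Finset.card_insert_of_notMem huI] at h1
    have h2 : (S ∩ C).card ≤ S.card := Finset.card_le_card Finset.inter_subset_left
    omega

/-- if `z` is useful then it has two neighbours in the side -/
theorem two_nbrs {G : SimpleGraph V} {C S0 : Finset V} {z : V} {k : ℕ} (hzC : z ∉ C)
    (h1 : CovW G (insert z C) (insert z S0) k) (h0 : ¬ CovW G C S0 k) (v : V) :
    ∃ y ∈ C, y ≠ v ∧ G.Adj z y := by
  obtain ⟨L, l1, l2, l3, l4⟩ := h1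
  by_cases hz : z ∈ L.flatten
  swap
  · exfalso
    apply h0
    refine ⟨L, l1, l2, ?_, ?_⟩
    · intro x hx
      rcases Finset.mem_insert.1 (l3 x hx) with h | h
      · exact absurd (h ▸ hx) hz
      · exact h
    · intro x hx
      rw [Finset.mem_sdiff] at hx
      by_cases hxz : x = z
      · exact absurd (hxz ▸ hx.1) hzC
      · exact l4 x (Finset.mem_sdiff.2 ⟨Finset.mem_insert_of_mem hx.1, fun h => by
          rcases Finset.mem_insert.1 h with h | h
          · exact hxz h
          · exact hx.2 h⟩)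
  · obtain ⟨D, hD, hzD⟩ := List.mem_flatten.1 hz
    have hDc := l2.cyc D hD
    obtain ⟨r, hr⟩ := rot_cons hzD
    obtain ⟨n1, n2, n3, n4⟩ := hDc.of_isRotated hr
    have hrC : ∀ y ∈ r, y ∈ C := by
      intro y hy
      have hyD : y ∈ D := hr.perm.mem_iff.2 (List.mem_cons_of_mem _ hy)
      rcases Finset.mem_insert.1 (l3 y (List.mem_flatten.2 ⟨D, hD, hyD⟩)) with h | h
      · exact absurd (h ▸ hy) (List.nodup_cons.1 n1).1
      · exact h
    rcases r with _ | ⟨a, r⟩
    · simp at n2
    rcases List.eq_nil_or_concat r with rfl | ⟨r', b, rfl⟩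
    · simp at n2
    rw [List.isChain_cons_cons] at n3
    have hzb : G.Adj b z := n4 b (by simp [List.getLast?_cons, List.getLast?_append]) z (by simp)
    by_cases hav : a = v
    · refine ⟨b, hrC b (by simp), ?_, hzb.symm⟩
      rintro rfl
      have := (List.nodup_cons.1 (List.nodup_cons.1 n1).2).1
      apply this
      rw [hav]
      simp
    · exact ⟨a, hrC a (by simp), hav, n3.1⟩

/-- good vertices of a useful side are good -/
theorem good_erase {G : SimpleGraph V} {H S C : Finset V} {z : V} (h : Part G H z C)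
    (hH : Conn1 G H) (h2 : ∀ v, ∃ y ∈ C, y ≠ v ∧ G.Adj z y) {v : V}
    (hv : Good G C (S ∩ C) v) : Good G H S v := by
  refine ⟨h.subH hv.mem, fun hS => hv.nS (Finset.mem_inter.2 ⟨hS, hv.mem⟩), ?_⟩
  have hzv : z ≠ v := fun he => h.znC (he ▸ hv.mem)
  have key : ∀ a ∈ H.erase v, Reach G (H.erase v) z a := by
    intro a ha
    rw [Finset.mem_erase] at ha
    by_cases haC : a ∈ C
    · obtain ⟨y, hy, hyv, hzy⟩ := h2 v
      have h3 : Reach G (H.erase v) y a := (hv.nc y (Finset.mem_erase.2 ⟨hyv, hy⟩) a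
        (Finset.mem_erase.2 ⟨ha.1, haC⟩)).mono (Finset.erase_subset_erase _ h.subH)
      exact Relation.ReflTransGen.head ⟨Finset.mem_erase.2 ⟨hzv, h.zH⟩,
        Finset.mem_erase.2 ⟨hyv, h.subH hy⟩, hzy⟩ h3
    · obtain ⟨q, q1, q2, q3, q4⟩ := h.out_reach hH ha.2 haC
      exact reach_of_seg q1 (fun y hy => Finset.mem_erase.2
        ⟨fun he => q4 y hy (he ▸ hv.mem), q3 y hy⟩)
  intro a ha b hb
  exact Relation.ReflTransGen.trans (Reach.symm (key a ha)) (key b hb)

/-- near vertices stay near in a useful side -/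
theorem near_erase {G : SimpleGraph V} {H S C : Finset V} {z : V} (h : Part G H z C)
    (hH : Conn1 G H) (h2 : ∀ v, ∃ y ∈ C, y ≠ v ∧ G.Adj z y) {x x' : V} (hx : x ∈ C)
    (hx' : x' ∈ C) (hn : Near G H S x x') : Near G C (S ∩ C) x x' := by
  intro hne v hv
  have hvH : Good G H S v := good_erase h hH h2 hv
  obtain ⟨w, hw, hwv, s1, s2⟩ := hn hne v hvH
  by_cases hwC : w ∈ C
  · refine ⟨w, hwC, hwv, ?_, ?_⟩
    · rcases s1 with s1 | s1
      · exact Or.inl s1
      · exact Or.inr (fun hr => s1 (hr.mono (Finset.erase_subset_erase _ h.subH)))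
    · rcases s2 with s2 | s2
      · exact Or.inl s2
      · exact Or.inr (fun hr => s2 (hr.mono (Finset.erase_subset_erase _ h.subH)))
  · exfalso
    rcases s1 with s1 | s1
    · exact hwC (s1 ▸ hx)
    · refine s1 ((h.conn v hv.mem x hx).mono ?_)
      intro y hy
      exact Finset.mem_erase.2 ⟨fun he => hwC (he ▸ hy), h.subH hy⟩

/-- covers of two sides -/
theorem glue {G : SimpleGraph V} [DecidableRel G.Adj] {U W : Finset V} {z : V} (hW : W ⊆ U)
    (hC : CW G U W) (hz : z ∈ U) {X Y : Finset V} (hXU : X ⊆ U) (hYU : Y ⊆ U)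
    (hdis : Disjoint (insert z X) Y) (hall : ∀ x ∈ U, x = z ∨ x ∈ X ∨ x ∈ Y) {p q : ℕ}
    (hp : CovW G (insert z X) (insert z (W ∩ X)) p) (hq : CovW G Y (W ∩ Y) q) :
    CovW G U W (p + q) := by
  obtain ⟨L, hL1, hL2, hL3, hL4⟩ := CovW.union hdis hp hq
  have hins : insert z X ∪ Y ⊆ U := by
    intro x hx
    rcases Finset.mem_union.1 hx with h | h
    · rcases Finset.mem_insert.1 h with rfl | h
      · exact hz
      · exact hXU h
    · exact hYU h
  have hcov : ∀ x ∈ U \ W, x ≠ z → x ∈ L.flatten := by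
    intro x hx hxz
    have hx' := Finset.mem_sdiff.1 hx
    apply hL4
    rw [Finset.mem_sdiff, Finset.mem_union, Finset.mem_union, Finset.mem_insert,
      Finset.mem_insert, Finset.mem_inter, Finset.mem_inter]
    refine ⟨?_, ?_⟩
    · rcases hall x hx'.1 with h | h | h
      · exact absurd h hxz
      · exact Or.inl (Or.inr h)
      · exact Or.inr h
    · push Not
      exact ⟨⟨hxz, fun h => absurd h hx'.2⟩, fun h => absurd h hx'.2⟩
  by_cases hzW : z ∈ W
  · exact ⟨L, hL1, hL2, fun x hx => hins (hL3 x hx), fun x hx =>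
      hcov x hx (fun h => (Finset.mem_sdiff.1 hx).2 (h ▸ hzW))⟩
  · exact absorb hW (Finset.mem_sdiff.2 ⟨hz, hzW⟩) (fun I h1 h2 h3 => hC I h1 h2 z h3)
      ⟨L, hL1, hL2, fun x hx => hins (hL3 x hx), hcov⟩

/-- a piece `z + X`: an independent set of good vertices in `X` -/
theorem pieceZ {K n : ℕ} {G : SimpleGraph V} [DecidableRel G.Adj] {U W X : Finset V} {z : V}
    (ih : ∀ U' W', W' ⊆ U' → U'.card ≤ n → Conn1 G U' → CW G U' W' → BP K G U' W')
    (hconn : Conn1 G U) (hX : Side G U z X) (hXn : X.card + 1 ≤ n)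
    (hCX : CW G (insert z X) (insert z (W ∩ X))) {m : ℕ} (hmK : m ≤ K)
    (hm : ∀ l, l < m → ¬ CovW G (insert z X) (insert z (W ∩ X)) l) :
    ∃ J : Finset V, J ⊆ X ∧ (∀ v ∈ J, Good G U W v) ∧ G.IsIndepSet (J : Set V) ∧ J.card = m ∧
      ∀ M ⊆ insert z X, (∀ x ∈ M, ∀ y ∈ M, Near G (insert z X) (insert z (W ∩ X)) x y) →
        ∑ v ∈ J, dU G U v + max M.card 1 ≤ X.card + 1 := by
  have hcX : (insert z X).card = X.card + 1 := Finset.card_insert_of_notMem hX.znC
  rcases Nat.eq_zero_or_pos m with rfl | hpos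
  · refine ⟨∅, by simp, by simp, by simp [SimpleGraph.IsIndepSet], rfl, ?_⟩
    intro M hM _
    have := Finset.card_le_card hM
    simp only [Finset.sum_empty]
    omega
  · obtain ⟨J, h1, h2, h3, h4⟩ := ih (insert z X) (insert z (W ∩ X))
      (Finset.insert_subset_insert _ Finset.inter_subset_right) (by omega) (hX.conn_ins hconn)
      hCX (m - 1) (by omega) (hm _ (by omega))
    have hJX : J ⊆ X := by
      intro v hv
      have hg := h1 v hv
      rcases Finset.mem_insert.1 hg.mem with h | h
      · exact absurd (h ▸ Finset.mem_insert_self _ _) hg.nS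
      · exact h
    have hsum : ∑ v ∈ J, dU G U v = ∑ v ∈ J, dU G (insert z X) v :=
      Finset.sum_congr rfl (fun v hv => (hX.dU_eq (hJX hv)).symm)
    refine ⟨J, hJX, fun v hv => hX.good_of hconn (h1 v hv) (hJX hv), h2, by omega, ?_⟩
    intro M hM hMn
    have e1 := h4 M hM hMn
    have e2 := h4 {z} (by simp) (by
      intro x hx y hy
      rw [Finset.mem_singleton] at hx hy
      rw [hx, hy]
      exact near_refl _)
    rw [Finset.card_singleton] at e2
    rw [hsum]
    omega

/-- the bonus for a set `N` from a piece `z + X` -/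
theorem pieceN {G : SimpleGraph V} [DecidableRel G.Adj] {U W X J : Finset V} {z : V}
    (hconn : Conn1 G U) (hX : Side G U z X)
    (hJ : ∀ M ⊆ insert z X, (∀ x ∈ M, ∀ y ∈ M, Near G (insert z X) (insert z (W ∩ X)) x y) →
        ∑ v ∈ J, dU G U v + max M.card 1 ≤ X.card + 1)
    {N : Finset V} (hN : N ⊆ U) (hnear : ∀ x ∈ N, ∀ y ∈ N, Near G U W x y)
    (hex : ∃ x ∈ N, x ∉ insert z X) : ∑ v ∈ J, dU G U v + (N ∩ X).card ≤ X.card := by
  obtain ⟨x₂, hx₂, hx₂X⟩ := hex
  have hx₂X' : x₂ ∉ X := fun h => hx₂X (Finset.mem_insert_of_mem h)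
  have hzNX : z ∉ N ∩ X := fun h => hX.znC (Finset.mem_inter.1 h).2
  have hcz : (insert z (N ∩ X)).card = (N ∩ X).card + 1 := Finset.card_insert_of_notMem hzNX
  have hz1 : ∀ x ∈ N ∩ X, Near G (insert z X) (insert z (W ∩ X)) x z := fun x hx =>
    near_part_side hX hconn (Finset.mem_inter.1 hx).2 (hN hx₂) hx₂X'
      (hnear x (Finset.mem_inter.1 hx).1 x₂ hx₂)
  have h := hJ (insert z (N ∩ X)) (Finset.insert_subset_insert _ Finset.inter_subset_right) (by
    intro x hx y hy
    rcases Finset.mem_insert.1 hx with hxz | hx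
    · rcases Finset.mem_insert.1 hy with hyz | hy
      · rw [hxz, hyz]
        exact near_refl _
      · rw [hxz]
        exact near_symm (hz1 y hy)
    · rcases Finset.mem_insert.1 hy with hyz | hy
      · rw [hyz]
        exact hz1 x hx
      · exact near_in_side hX hconn (Finset.mem_insert_of_mem (Finset.mem_inter.1 hx).2)
          (Finset.mem_insert_of_mem (Finset.mem_inter.1 hy).2)
          (hnear x (Finset.mem_inter.1 hx).1 y (Finset.mem_inter.1 hy).1))
  omega

/-- one component of `U - z` -/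
theorem compJ {K n : ℕ} {G : SimpleGraph V} [DecidableRel G.Adj] {U W C : Finset V} {z u₀ : V}
    (ih : ∀ U' W', W' ⊆ U' → U'.card ≤ n → Conn1 G U' → CW G U' W' → BP K G U' W')
    (hW : W ⊆ U) (hCW : CW G U W)
    (hconn : Conn1 G U) (hC : Part G U z C) (hCn : C.card + 1 ≤ n) (hu : u₀ ∈ U)
    (hu' : u₀ ∉ insert z C) {m : ℕ} (hmK : m ≤ K)
    (hm : ∀ l, l < m → ¬ CovW G C (W ∩ C) l) :
    ∃ J : Finset V, J ⊆ C ∧ (∀ v ∈ J, Good G U W v) ∧ G.IsIndepSet (J : Set V) ∧ J.card = m ∧
      ∀ N ⊆ U, (∀ x ∈ N, ∀ y ∈ N, Near G U W x y) →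
        ∑ v ∈ J, dU G U v + (N ∩ C).card ≤ C.card + m := by
  have hCs : Side G U z C := hC.side
  rcases Nat.eq_zero_or_pos m with rfl | hpos
  · refine ⟨∅, by simp, by simp, by simp [SimpleGraph.IsIndepSet], rfl, ?_⟩
    intro N _ _
    have := Finset.card_le_card (Finset.inter_subset_right (s₁ := N) (s₂ := C))
    simpa using this
  have hCZ : CW G (insert z C) (insert z (W ∩ C)) := cw_of_cwb (hCs.cwb hW (cwb_of_cw hCW) hu hu')
  have hC0 : CW G C (W ∩ C) := hCs.cw0 hW hCW hu hu'
  by_cases hh : ∃ l, l < m ∧ CovW G (insert z C) (insert z (W ∩ C)) l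
  · obtain ⟨l, hl, hcov⟩ := hh
    have h2 := two_nbrs hC.znC hcov (hm l hl)
    obtain ⟨J, j1, j2, j3, j4⟩ := ih C (W ∩ C) Finset.inter_subset_right (by omega) hC.conn hC0
      (m - 1) (by omega) (hm _ (by omega))
    have hJC : J ⊆ C := fun v hv => (j1 v hv).mem
    have hsum : ∑ v ∈ J, dU G U v ≤ ∑ v ∈ J, dU G C v + m := by
      calc ∑ v ∈ J, dU G U v ≤ ∑ v ∈ J, (dU G C v + 1) :=
            Finset.sum_le_sum (fun v hv => hCs.dU_le_one (hJC hv))
        _ = _ := by rw [Finset.sum_add_distrib]; simp; omega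
    refine ⟨J, hJC, fun v hv => good_erase hC hconn h2 (j1 v hv), j2, by omega, ?_⟩
    intro N hN hnear
    by_cases hne : (N ∩ C).Nonempty
    · obtain ⟨x₀, hx₀⟩ := hne
      have hx₀' := Finset.mem_inter.1 hx₀
      by_cases hNC : N ⊆ C
      · have := j4 N hNC (fun x hx y hy => near_erase hC hconn h2 (hNC hx) (hNC hy)
          (hnear x hx y hy))
        rw [Finset.inter_eq_left.2 hNC]
        omega
      · exfalso
        obtain ⟨x₁, hx₁, hx₁C⟩ := Finset.not_subset.1 hNC
        have hnz : Near G (insert z C) (insert z (W ∩ C)) x₀ z :=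
          near_part_side hCs hconn hx₀'.2 (hN hx₁) hx₁C (hnear x₀ hx₀'.1 x₁ hx₁)
        exact hm l hl (no_help hC.znC Finset.inter_subset_right hC.conn (hC.conn_ins hconn) hCZ
          hx₀'.2 hnz hcov)
    · rw [Finset.not_nonempty_iff_eq_empty] at hne
      rw [hne]
      have := j4 ∅ (by simp) (by simp)
      simp only [Finset.card_empty] at this ⊢
      omega
  · push Not at hh
    obtain ⟨J, j1, j2, j3, j4, j5⟩ := pieceZ ih hconn hCs hCn hCZ hmK hh
    refine ⟨J, j1, j2, j3, j4, ?_⟩
    intro N hN hnear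
    by_cases hNC : N ⊆ insert z C
    · have h1 := j5 N hNC (fun x hx y hy => near_in_side hCs hconn (hNC hx) (hNC hy)
        (hnear x hx y hy))
      have h2 := Finset.card_le_card (Finset.inter_subset_left (s₁ := N) (s₂ := C))
      omega
    · have := pieceN hconn hCs j5 hN hnear (Finset.not_subset.1 hNC)
      omega

/-- a union of components of `U - z` -/
theorem sideJ {K n : ℕ} {G : SimpleGraph V} [DecidableRel G.Adj] {U W : Finset V} {z u₀ : V}
    (ih : ∀ U' W', W' ⊆ U' → U'.card ≤ n → Conn1 G U' → CW G U' W' → BP K G U' W')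
    (hW : W ⊆ U) (hCW : CW G U W) (hconn : Conn1 G U) (hu : u₀ ∈ U) : ∀ (r : ℕ) (B : Finset V),
    B.card ≤ r → Side G U z B → B.card + 1 ≤ n → u₀ ∉ insert z B → ∀ m, m ≤ K →
    (∀ l, l < m → ¬ CovW G B (W ∩ B) l) →
    ∃ J : Finset V, J ⊆ B ∧ (∀ v ∈ J, Good G U W v) ∧ G.IsIndepSet (J : Set V) ∧ J.card = m ∧
      ∀ N ⊆ U, (∀ x ∈ N, ∀ y ∈ N, Near G U W x y) →
        ∑ v ∈ J, dU G U v + (N ∩ B).card ≤ B.card + m := by
  intro r
  induction r with
  | zero =>
    intro B hB0 hBs hBn hu' m hmK hm
    have hB : B = ∅ := Finset.card_eq_zero.1 (by omega)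
    have hm0 : m = 0 := by
      by_contra h
      apply hm 0 (by omega)
      rw [hB]
      exact ⟨[], by simp, ⟨by simp, by simp⟩, by simp, fun x hx => by simp at hx⟩
    subst hm0
    refine ⟨∅, by simp, by simp, by simp [SimpleGraph.IsIndepSet], rfl, ?_⟩
    intro N _ _
    rw [hB]
    simp
  | succ r ihr =>
    intro B hBr hBs hBn hu' m hmK hm
    rcases B.eq_empty_or_nonempty with hB | ⟨x, hx⟩
    · exact ihr B (by rw [hB]; simp) hBs hBn hu' m hmK hm
    obtain ⟨C, hxC, hC⟩ := exists_part (G := G) hBs.zH (hBs.sub hx)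
    have hCB : C ⊆ B := by
      intro y hy
      by_contra hyB
      obtain ⟨P, p1, p2, p3⟩ := seg_of_reach (hC.conn x hxC y hy) hxC
      have h := hBs.cross p1 (fun w hw => hC.subH (p3 w hw)) (Finset.mem_insert_of_mem hx)
        (fun h => by
          rcases Finset.mem_insert.1 h with h | h
          · exact hC.znC (h ▸ hy)
          · exact hyB h)
      exact hC.znC (p3 z h)
    have hD : Side G U z (B \ C) := by
      refine ⟨hBs.zH, Finset.sdiff_subset.trans hBs.sub, ?_⟩
      intro w hw y hy hwy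
      rw [Finset.mem_sdiff] at hw
      rcases hBs.cl w hw.1 y hy hwy with h | h
      · left
        refine Finset.mem_sdiff.2 ⟨h, fun hyC => ?_⟩
        rcases hC.cl y hyC w (hBs.subH hw.1) hwy.symm with h1 | h1
        · exact hw.2 h1
        · exact hBs.znC (h1 ▸ hw.1)
      · exact Or.inr h
    have hcB : C.card + (B \ C).card = B.card := by
      rw [Finset.card_sdiff_of_subset hCB]
      have := Finset.card_le_card hCB
      omega
    have hCp : 1 ≤ C.card := Finset.card_pos.2 ⟨x, hxC⟩
    have huC : u₀ ∉ insert z C := fun h => hu' (Finset.insert_subset_insert _ hCB h)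
    have huD : u₀ ∉ insert z (B \ C) := fun h =>
      hu' (Finset.insert_subset_insert _ Finset.sdiff_subset h)
    have hno : ∀ a ∈ C, ∀ b ∈ B \ C, ¬ G.Adj a b := by
      intro a ha b hb hab
      rcases hC.cl a ha b (hD.subH hb) hab with h1 | h1
      · exact (Finset.mem_sdiff.1 hb).2 h1
      · exact hD.znC (h1 ▸ hb)
    obtain ⟨c0, hc0, hc0'⟩ := exists_min_cov Finset.inter_subset_right
      (hC.side.cw0 hW hCW hu huC)
    obtain ⟨d0, hd0, hd0'⟩ := exists_min_cov Finset.inter_subset_right
      (hD.cw0 hW hCW hu huD)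
    have hmle : m ≤ c0 + d0 := by
      by_contra h
      push Not at h
      apply hm (c0 + d0) h
      have := CovW.union (Finset.disjoint_sdiff (s := C) (t := B)) hc0 hd0
      rw [Finset.union_sdiff_of_subset hCB, ← Finset.inter_union_distrib_left,
        Finset.union_sdiff_of_subset hCB] at this
      exact this
    obtain ⟨J₁, a1, a2, a3, a4, a5⟩ := compJ ih hW hCW hconn hC (by omega) hu huC
      (m := min c0 m) (by omega) (fun l hl => hc0' l (by omega))
    obtain ⟨J₂, b1, b2, b3, b4, b5⟩ := ihr (B \ C) (by omega) hD (by omega) huD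
      (m - min c0 m) (by omega) (fun l hl => hd0' l (by omega))
    have hJJ : Disjoint J₁ J₂ := Finset.disjoint_of_subset_left a1
      (Finset.disjoint_of_subset_right b1 Finset.disjoint_sdiff)
    refine ⟨J₁ ∪ J₂, Finset.union_subset (a1.trans hCB) (b1.trans Finset.sdiff_subset), ?_,
      indep_union a3 b3 a1 b1 hno, ?_, ?_⟩
    · intro v hv
      rcases Finset.mem_union.1 hv with h | h
      · exact a2 v h
      · exact b2 v h
    · rw [Finset.card_union_of_disjoint hJJ]
      omega
    · intro N hN hnear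
      rw [Finset.sum_union hJJ]
      have e1 := a5 N hN hnear
      have e2 := b5 N hN hnear
      have e3 : (N ∩ B).card = (N ∩ C).card + (N ∩ (B \ C)).card := by
        rw [← Finset.card_union_of_disjoint, ← Finset.inter_union_distrib_left,
          Finset.union_sdiff_of_subset hCB]
        exact Finset.disjoint_of_subset_left Finset.inter_subset_right
          (Finset.disjoint_of_subset_right Finset.inter_subset_right Finset.disjoint_sdiff)
      omega

/-- THEOREM B+. -/
theorem bplus {K : ℕ} {G : SimpleGraph V} [DecidableRel G.Adj] : ∀ (n : ℕ) (U W : Finset V),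
    U.card ≤ n → (∀ U' W', W' ⊆ U' → U'.card ≤ n → CW G U' W' → PWK K G U' W') → W ⊆ U →
    Conn1 G U → CW G U W → BP K G U W := by
  intro n
  induction n with
  | zero =>
    intro U W hn _ hW _ _ k _ hk
    exfalso
    apply hk
    have hU : U = ∅ := Finset.card_eq_zero.1 (by omega)
    exact ⟨[], by simp, ⟨by simp, by simp⟩, by simp, fun x hx => by
      rw [hU] at hx
      simp at hx⟩
  | succ n ihn =>
    intro U W hn hIH hW hconn hC k hkK hk
    have ih : ∀ U' W', W' ⊆ U' → U'.card ≤ n → Conn1 G U' → CW G U' W' → BP K G U' W' :=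
      fun U' W' h1 h2 h3 h4 => ihn U' W' h2 (fun U'' W'' h5 h6 h7 => hIH U'' W'' h5 (by omega) h7)
        h1 h3 h4
    by_cases hc2 : Conn2 G U
    · -- no cut vertex
      obtain ⟨I, h1, h2, h3, h4⟩ := hIH U W hW hn hC k hkK hk
      refine ⟨I, fun v hv => ⟨(Finset.mem_sdiff.1 (h1 hv)).1, (Finset.mem_sdiff.1 (h1 hv)).2,
        hc2 v (Finset.mem_sdiff.1 (h1 hv)).1⟩, h2, h3, ?_⟩
      intro N hN hnear
      by_cases hN2 : N.card ≤ 1
      · omega
      · exfalso
        push Not at hN2
        obtain ⟨y₁, hy₁, y₂, hy₂, hy12⟩ := Finset.one_lt_card.1 hN2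
        obtain ⟨v, hv⟩ : I.Nonempty := Finset.card_pos.1 (by omega)
        have hv' := Finset.mem_sdiff.1 (h1 hv)
        exact near_two hc2 hv'.1 hv'.2 (hN hy₁) (hN hy₂) hy12 (hnear y₁ hy₁ y₂ hy₂)
    unfold Conn2 at hc2
    push Not at hc2
    obtain ⟨z, hz, hzc⟩ := hc2
    -- two sides
    obtain ⟨x₀, hx₀⟩ : (U.erase z).Nonempty := by
      by_contra h
      rw [Finset.not_nonempty_iff_eq_empty] at h
      apply hzc
      rw [h]
      intro a ha
      simp at ha
    obtain ⟨A, hxA, hA⟩ := exists_part (G := G) hz hx₀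
    obtain ⟨B, hB⟩ : ∃ B, B = (U.erase z) \ A := ⟨_, rfl⟩
    have hAs : Side G U z A := hA.side
    have hBs : Side G U z B := hB ▸ hA.rest
    have hAB : Disjoint A B := by
      rw [hB]
      exact Finset.disjoint_sdiff
    have hzA : z ∉ A := hA.znC
    have hzB : z ∉ B := hBs.znC
    have hall : ∀ x ∈ U, x = z ∨ x ∈ A ∨ x ∈ B := by
      intro x hx
      by_cases h : x = z
      · exact Or.inl h
      · by_cases h' : x ∈ A
        · exact Or.inr (Or.inl h')
        · right; right
          rw [hB]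
          exact Finset.mem_sdiff.2 ⟨Finset.mem_erase.2 ⟨h, hx⟩, h'⟩
    have hBne : B.Nonempty := by
      by_contra hcon
      rw [Finset.not_nonempty_iff_eq_empty] at hcon
      apply hzc
      have h1 : U.erase z = A := by
        apply Finset.Subset.antisymm _ hA.sub
        intro y hy
        rcases hall y (Finset.mem_of_mem_erase hy) with h3 | h3 | h3
        · exact absurd h3 (Finset.mem_erase.1 hy).1
        · exact h3
        · rw [hcon] at h3
          simp at h3
      rw [h1]
      exact hA.conn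
    obtain ⟨b₀, hb₀⟩ := hBne
    have hAU := hAs.subH
    have hBU := hBs.subH
    have hno : ∀ a ∈ A, ∀ b ∈ B, ¬ G.Adj a b := by
      intro a ha b hb hab
      rcases hA.cl a ha b (hBU hb) hab with h1 | h1
      · exact Finset.disjoint_left.1 hAB h1 hb
      · exact hzB (h1 ▸ hb)
    have hcU : U.card = A.card + B.card + 1 := by
      have : U = insert z (A ∪ B) := by
        ext x
        rw [Finset.mem_insert, Finset.mem_union]
        constructor
        · exact hall x
        · rintro (rfl | h | h)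
          · exact hz
          · exact hAU h
          · exact hBU h
      rw [this, Finset.card_insert_of_notMem, Finset.card_union_of_disjoint hAB]
      rw [Finset.mem_union]
      push Not
      exact ⟨hzA, hzB⟩
    have hAp : 1 ≤ A.card := Finset.card_pos.2 ⟨x₀, hxA⟩
    have hBp : 1 ≤ B.card := Finset.card_pos.2 ⟨b₀, hb₀⟩
    have hbA : b₀ ∉ insert z A := by
      intro h
      rcases Finset.mem_insert.1 h with h | h
      · exact hzB (h ▸ hb₀)
      · exact Finset.disjoint_left.1 hAB h hb₀
    have hxB : x₀ ∉ insert z B := by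
      intro h
      rcases Finset.mem_insert.1 h with h | h
      · exact hzA (h ▸ hxA)
      · exact Finset.disjoint_left.1 hAB hxA h
    have hx₀U : x₀ ∈ U := hAU hxA
    have hCb := cwb_of_cw hC
    have hCA1 : CW G (insert z A) (insert z (W ∩ A)) := cw_of_cwb (hAs.cwb hW hCb (hBU hb₀) hbA)
    have hCB1 : CW G (insert z B) (insert z (W ∩ B)) := cw_of_cwb (hBs.cwb hW hCb hx₀U hxB)
    have hCA0 : CW G A (W ∩ A) := hAs.cw0 hW hC (hBU hb₀) hbA
    have hCB0 : CW G B (W ∩ B) := hBs.cw0 hW hC hx₀U hxB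
    have hsA1 : insert z (W ∩ A) ⊆ insert z A :=
      Finset.insert_subset_insert _ Finset.inter_subset_right
    have hsB1 : insert z (W ∩ B) ⊆ insert z B :=
      Finset.insert_subset_insert _ Finset.inter_subset_right
    obtain ⟨a1, ha1, ha1'⟩ := exists_min_cov hsA1 hCA1
    obtain ⟨b1, hb1, hb1'⟩ := exists_min_cov hsB1 hCB1
    obtain ⟨a0, ha0, ha0'⟩ := exists_min_cov Finset.inter_subset_right hCA0
    obtain ⟨b0, hb0, hb0'⟩ := exists_min_cov Finset.inter_subset_right hCB0
    have hk1 : k < a1 + b0 := by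
      by_contra h
      push Not at h
      exact hk ((glue hW hC hz hAU hBU (by rw [Finset.disjoint_insert_left]; exact ⟨hzB, hAB⟩)
        hall ha1 hb0).mono h)
    have hk2 : k < b1 + a0 := by
      by_contra h
      push Not at h
      exact hk ((glue hW hC hz hBU hAU (by
        rw [Finset.disjoint_insert_left]; exact ⟨hzA, hAB.symm⟩)
        (fun x hx => by rcases hall x hx with h | h | h <;> tauto) hb1 ha0).mono h)
    have hNc : ∀ N ⊆ U, N.card ≤ (N ∩ A).card + (N ∩ B).card + 1 := by
      intro N hN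
      have : N ⊆ insert z ((N ∩ A) ∪ (N ∩ B)) := by
        intro x hx
        rw [Finset.mem_insert, Finset.mem_union, Finset.mem_inter, Finset.mem_inter]
        rcases hall x (hN hx) with h | h | h
        · exact Or.inl h
        · exact Or.inr (Or.inl ⟨hx, h⟩)
        · exact Or.inr (Or.inr ⟨hx, h⟩)
      refine (Finset.card_le_card this).trans ((Finset.card_insert_le _ _).trans ?_)
      exact Nat.succ_le_succ (Finset.card_union_le _ _)
    by_cases hhelp : a1 < a0 ∧ b1 < b0
    · -- both sides are helped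
      obtain ⟨I, i1, i2, i3, i4, i5⟩ := compJ ih hW hC hconn hA (by omega) (hBU hb₀) hbA
        (m := min a0 (k + 1)) (by omega) (fun l hl => ha0' l (by omega))
      obtain ⟨J, j1, j2, j3, j4, j5⟩ := sideJ ih hW hC hconn hx₀U B.card B le_rfl hBs (by omega)
        hxB (k + 2 - min a0 (k + 1)) (by omega) (fun l hl => hb0' l (by omega))
      have hIJ : Disjoint I J :=
        Finset.disjoint_of_subset_left i1 (Finset.disjoint_of_subset_right j1 hAB)
      have hgood : ∀ v ∈ I ∪ J, Good G U W v := by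
        intro x hx
        rcases Finset.mem_union.1 hx with h | h
        · exact i2 x h
        · exact j2 x h
      have hIJU : I ∪ J ⊆ U \ W := fun x hx =>
        Finset.mem_sdiff.2 ⟨(hgood x hx).mem, (hgood x hx).nS⟩
      have hind := indep_union i3 j3 i1 j1 hno
      have hcIJ : (I ∪ J).card = k + 2 := by
        rw [Finset.card_union_of_disjoint hIJ]
        omega
      have hs3 := Finset.sum_union (f := fun v => dU G U v) hIJ
      obtain ⟨v, hv⟩ : (I ∪ J).Nonempty := Finset.card_pos.1 (by omega)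
      have h1 := hC (I ∪ J) hIJU hind v hv
      have h3 := Finset.add_sum_erase (I ∪ J) (fun v => dU G U v) hv
      have h4 := Finset.card_erase_of_mem hv
      refine ⟨(I ∪ J).erase v, fun x hx => hgood x (Finset.mem_of_mem_erase hx),
        fun a ha b hb => hind (Finset.erase_subset _ _ ha) (Finset.erase_subset _ _ hb),
        by omega, ?_⟩
      intro N hN hnear
      have e1 := i5 N hN hnear
      have e2 := j5 N hN hnear
      have e3 := hNc N hN
      omega
    · have hk3 : k < a1 + b1 := by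
        by_contra h
        push Not at h
        apply hhelp
        constructor <;> omega
      obtain ⟨I, i1, i2, i3, i4, i5⟩ := pieceZ ih hconn hAs (by omega) hCA1
        (m := min a1 (k + 1)) (by omega) (fun l hl => ha1' l (by omega))
      obtain ⟨J, j1, j2, j3, j4, j5⟩ := pieceZ ih hconn hBs (by omega) hCB1
        (m := k + 1 - min a1 (k + 1)) (by omega) (fun l hl => hb1' l (by omega))
      have hIJ : Disjoint I J :=
        Finset.disjoint_of_subset_left i1 (Finset.disjoint_of_subset_right j1 hAB)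
      refine ⟨I ∪ J, ?_, indep_union i3 j3 i1 j1 hno, ?_, ?_⟩
      · intro x hx
        rcases Finset.mem_union.1 hx with h | h
        · exact i2 x h
        · exact j2 x h
      · rw [Finset.card_union_of_disjoint hIJ]; omega
      · intro N hN hnear
        rw [Finset.sum_union hIJ]
        have ei := i5 ∅ (by simp) (by simp)
        have ej := j5 ∅ (by simp) (by simp)
        simp only [Finset.card_empty] at ei ej
        by_cases hNA : N ⊆ insert z A
        · have := i5 N hNA (fun x hx y hy => near_in_side hAs hconn (hNA hx) (hNA hy)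
            (hnear x hx y hy))
          omega
        by_cases hNB : N ⊆ insert z B
        · have := j5 N hNB (fun x hx y hy => near_in_side hBs hconn (hNB hx) (hNB hy)
            (hnear x hx y hy))
          omega
        have e1 := pieceN hconn hAs i5 hN hnear (Finset.not_subset.1 hNA)
        have e2 := pieceN hconn hBs j5 hN hnear (Finset.not_subset.1 hNB)
        have e3 := hNc N hN
        omega

/-- the sum of the degrees is smaller than the number of vertices -/
theorem BP.sum {G : SimpleGraph V} [DecidableRel G.Adj] {U W I : Finset V}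
    (h : ∀ N ⊆ U, (∀ x ∈ N, ∀ y ∈ N, Near G U W x y) → ∑ v ∈ I, dU G U v + N.card ≤ U.card)
    (hU : U.Nonempty) : ∑ v ∈ I, dU G U v + 1 ≤ U.card := by
  obtain ⟨x, hx⟩ := hU
  have := h {x} (by simpa using hx) (by
    intro a ha b hb
    rw [Finset.mem_singleton] at ha hb
    rw [ha, hb]
    exact near_refl _)
  simpa using this

/-- a good vertex is near only to itself -/
theorem Good.near_eq {G : SimpleGraph V} {H S : Finset V} {v x : V} (hv : Good G H S v)
    (h : Near G H S v x) : v = x := by
  by_contra hne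
  obtain ⟨w, hw, hwv, s1, s2⟩ := h hne v hv
  rcases s1 with s1 | s1
  · exact hwv s1.symm
  · exact s1 (Relation.ReflTransGen.refl)

end Pool.Agent.H18C
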