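import Pool.Agent.H18C.Near
import Pool.Agent.EG40.Low

/-! The 2-connected case of the link lemma, and the link lemma. -/

set_option autoImplicit false

namespace Pool.Agent.H18C

open List Pool.Agent.TF82 Pool.Agent.TFC Pool.Agent.EG31

universe u

set_option linter.unusedSectionVars false
set_option linter.unusedVariables false

variable {V : Type u} [DecidableEq V]

theorem CWb.deg {G : SimpleGraph V} [DecidableRel G.Adj] {H S : Finset V} {b : ℕ}
    (hC : CWb G H S b) {u : V} (hu : u ∈ H) (huS : u ∉ S) : S.card + b + 2 ≤ dU G H u := by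
  have := hC {u} (by
    intro y hy
    rw [Finset.mem_singleton] at hy
    exact Finset.mem_sdiff.2 ⟨hy ▸ hu, hy ▸ huS⟩) (by simp) u (Finset.mem_singleton_self u)
  rw [Finset.card_singleton] at this
  omega

theorem dU_sdiff {G : SimpleGraph V} [DecidableRel G.Adj] (H S : Finset V) (u : V) :
    dU G H u ≤ dU G (H \ S) u + S.card := by
  unfold dU
  calc (H.filter fun w => G.Adj u w).card
      ≤ (((H \ S).filter fun w => G.Adj u w) ∪ S).card := by
        apply Finset.card_le_card
        intro y hy
        rw [Finset.mem_filter] at hy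
        by_cases hyS : y ∈ S
        · exact Finset.mem_union_right _ hyS
        · exact Finset.mem_union_left _ (Finset.mem_filter.2
            ⟨Finset.mem_sdiff.2 ⟨hy.1, hyS⟩, hy.2⟩)
    _ ≤ _ := Finset.card_union_le _ _

theorem base2 {G : SimpleGraph V} [DecidableRel G.Adj] : Base2 G := by
  intro H S b x x' v hH h2 hS hC hv hvS hx hx' hne
  refine EG40.eg_low (G := G) H.card (b + 2) H S x x' le_rfl hx hx' hne ?_ ?_ ?_
  · intro w hw u hu huw
    rw [Finset.mem_sdiff] at hu
    have hu' : u ∈ H.erase w := Finset.mem_erase.2 ⟨huw, hu.1⟩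
    by_cases hxw : x = w
    · right
      have hx'w : x' ≠ w := fun h => hne (hxw.trans h.symm)
      exact ⟨hx'w, h2 w hw u hu' x' (Finset.mem_erase.2 ⟨hx'w, hx'⟩)⟩
    · left
      exact ⟨hxw, h2 w hw u hu' x (Finset.mem_erase.2 ⟨hxw, hx⟩)⟩
  · by_cases hvv : v ≠ x ∧ v ≠ x'
    · exact ⟨v, Finset.mem_sdiff.2 ⟨hv, hvS⟩, hvv⟩
    have h1 := hC.deg hv hvS
    have h3 := dU_sdiff (G := G) H S v
    have h4 : 2 ≤ ((H \ S).filter fun w => G.Adj v w).card := by
      unfold dU at h3
      unfold dU at h1
      omega
    -- two neighbours of `v` outside `S`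
    have h5 : ∃ u ∈ (H \ S).filter (fun w => G.Adj v w), u ≠ x ∧ u ≠ x' := by
      by_contra hcon
      push Not at hcon
      have h6 : ((H \ S).filter fun w => G.Adj v w) ⊆ ({x, x'} : Finset V).erase v := by
        intro u hu
        have hvu : G.Adj v u := (Finset.mem_filter.1 hu).2
        refine Finset.mem_erase.2 ⟨fun he => G.loopless.irrefl v (he ▸ hvu), ?_⟩
        by_cases hux : u = x
        · simp [hux]
        · simp [hcon u hu hux]
      have h7 := Finset.card_le_card h6
      have h8 : (({x, x'} : Finset V).erase v).card ≤ 1 := by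
        have hvm : v ∈ ({x, x'} : Finset V) := by
          by_contra hvm
          apply hvv
          simp at hvm
          exact hvm
        rw [Finset.card_erase_of_mem hvm]
        have := Finset.card_le_two (a := x) (b := x')
        omega
      omega
    obtain ⟨u, hu, hux⟩ := h5
    exact ⟨u, (Finset.mem_filter.1 hu).1, hux⟩
  · intro u hu hux hux'
    rw [Finset.mem_sdiff] at hu
    have h1 := hC.deg hu.1 hu.2
    have h3 := dU_sdiff (G := G) H S u
    have h4 : dU G (H \ S) u ≤ dU G ((H \ S) ∪ {x, x'}) u := by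
      unfold dU
      exact Finset.card_le_card (Finset.filter_subset_filter _ Finset.subset_union_left)
    omega

/-- LINK: vertices in different clusters are joined by a path with at least `b + 3` vertices -/
theorem near_link' {G : SimpleGraph V} [DecidableRel G.Adj] {H S : Finset V} {b : ℕ} {x x' : V}
    (hH : Conn1 G H) (hS : S ⊆ H) (hC : CWb G H S b) (hx : x ∈ H) (hx' : x' ∈ H)
    (hn : ¬ Near G H S x x') :
    ∃ Q, Seg G Q x x' ∧ Q.Nodup ∧ (∀ z ∈ Q, z ∈ H) ∧ b + 3 ≤ Q.length :=
  near_link base2 H.card H S b x x' le_rfl hH hS hC hx hx' hn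

/-- a vertex `y` is not near to one of two vertices in different clusters -/
theorem near_or {G : SimpleGraph V} {H S : Finset V} (hH : Conn1 G H) {x y x' : V}
    (hy : y ∈ H) (hn : ¬ Near G H S x x') : ¬ Near G H S y x ∨ ¬ Near G H S y x' := by
  by_contra hcon
  push Not at hcon
  exact hn (near_trans hH hy (near_symm hcon.1) hcon.2)

end Pool.Agent.H18C
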