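import Pool.Agent.H18C.PP
import Pool.Agent.H62P.Pkg

/-!
# The cut vertex step of the package
-/

set_option autoImplicit false

namespace Pool.Agent.H18C

open List Pool.Agent.TF82 Pool.Agent.TFC Pool.Agent.TFB Pool.Agent.EG31 Pool.Agent.H62P
  Pool.Agent.H36C Pool.Agent.H72N

universe u

set_option linter.unusedSectionVars false
set_option linter.unusedVariables false

variable {V : Type u} [DecidableEq V]

theorem kb_cwg {G : SimpleGraph V} [DecidableRel G.Adj] {H S : Finset V} {b : ℕ}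
    (h : Kb G H S b) : CWg G H S b := fun I hI hi v hv hc =>
  h.sur I hI hi v hv ⟨(Finset.mem_sdiff.1 (hI hv)).1, (Finset.mem_sdiff.1 (hI hv)).2, hc⟩

theorem mk_kb {G : SimpleGraph V} [DecidableRel G.Adj] {H S : Finset V} {b : ℕ} (hS : S ⊆ H)
    (hc : Conn1 G H) (hne : (H \ S).Nonempty) (hC : CW G H S) (hg : CWg G H S b) : Kb G H S b :=
  ⟨hS, hc, hne, hC, fun I hI hi v hv hgv => hg I hI hi v hv hgv.nc⟩

theorem PP.of {G : SimpleGraph V} {H S I : Finset V} {b : ℕ} (h1 : P1 G H S b I)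
    (h2 : P2 G H S b I) : PP G H S b I := by
  constructor
  · intro M hM hne
    obtain ⟨v, hv, h⟩ := h1 M hM hne
    exact ⟨v, hv, fun x hx hxv => Lnk.mono (h x hx hxv) (by omega)⟩
  · intro M hM M' hM' hne hne' heq
    obtain ⟨v, hv, v', hv', hvv, h⟩ := h2 M hM M' hM' hne hne' (fun hh => heq hh.1 hh.2)
    exact ⟨v, hv, v', hv', hvv, Lnk.mono h (by omega)⟩

theorem PP.to1 {G : SimpleGraph V} {H S I : Finset V} {b : ℕ} (h : PP G H S b I) :
    P1 G H S b I := by
  intro M hM hne
  obtain ⟨v, hv, h1⟩ := h.p1 M hM hne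
  exact ⟨v, hv, fun x hx hxv => Lnk.mono (h1 x hx hxv) (by omega)⟩

theorem PP.to2 {G : SimpleGraph V} {H S I : Finset V} {b : ℕ} (h : PP G H S b I) :
    P2 G H S b I := by
  intro M hM M' hM' hne hne' heq
  obtain ⟨v, hv, v', hv', hvv, h1⟩ := h.p2 M hM M' hM' hne hne' (fun h1 h2 => heq ⟨h1, h2⟩)
  exact ⟨v, hv, v', hv', hvv, Lnk.mono h1 (by omega)⟩

theorem PP.sub {G : SimpleGraph V} {H S I J : Finset V} {b : ℕ} (h : PP G H S b I)
    (hJ : J ⊆ I) : PP G H S b J :=
  ⟨fun M hM => h.p1 M (hM.trans hJ), fun M hM M' hM' => h.p2 M (hM.trans hJ) M' (hM'.trans hJ)⟩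

/-- `m` members of a smaller set -/
theorem ihp_get {G : SimpleGraph V} [DecidableRel G.Adj] {n : ℕ} (ih : IHP G n)
    {U W : Finset V} {b m : ℕ} (hW : W ⊆ U) (hn : U.card < n) (hc : Conn1 G U) (hC : CW G U W)
    (hg : CWg G U W b) (hm : ∀ l, l < m → ¬ CovW G U W l) :
    ∃ I : Finset V, (∀ v ∈ I, Good G U W v) ∧ G.IsIndepSet (I : Set V) ∧ I.card = m ∧
      (∀ N ⊆ U, (∀ x ∈ N, ∀ y ∈ N, Near G U W x y) → ∑ v ∈ I, dU G U v + N.card ≤ U.card) ∧
      PP G U W b I := by
  rcases Nat.eq_zero_or_pos m with rfl | hpos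
  · refine ⟨∅, by simp, by simp [SimpleGraph.IsIndepSet], rfl, ?_, ?_, ?_⟩
    · intro N hN _
      simpa using Finset.card_le_card hN
    · intro M hM hne
      rw [Finset.subset_empty.1 hM] at hne
      simp at hne
    · intro M hM M' hM' hne
      rw [Finset.subset_empty.1 hM] at hne
      simp at hne
  have hne : (U \ W).Nonempty := by
    by_contra hcon
    exact hm 0 hpos ⟨[], by simp, ⟨by simp, by simp⟩, by simp, fun x hx => absurd ⟨x, hx⟩ hcon⟩
  have hK := mk_kb hW hc hne hC hg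
  obtain ⟨f, hf⟩ := hK.cov
  obtain ⟨I, hI⟩ := ih U W b f hn hK hf
  have hmf : m ≤ f := by
    by_contra hcon
    push Not at hcon
    exact hm f hcon hf.1
  obtain ⟨J, hJI, hJc⟩ := Finset.exists_subset_card_eq (s := I) (n := m) (by rw [hI.card]; exact hmf)
  refine ⟨J, fun v hv => hI.good v (hJI hv), fun a ha c hc => hI.ind (hJI ha) (hJI hc), hJc, ?_,
    (PP.of hI.p1 hI.p2).sub hJI⟩
  intro N hN hnear
  have h1 := hI.near N hN hnear
  have h2 : ∑ v ∈ J, dU G U v ≤ ∑ v ∈ I, dU G U v :=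
    Finset.sum_le_sum_of_subset hJI
  omega

/-- the hypothesis of the lemmas of `BPlus` -/
theorem ihp_bp {G : SimpleGraph V} [DecidableRel G.Adj] {n : ℕ} (ih : IHP G n) (K : ℕ) :
    ∀ U' W', W' ⊆ U' → U'.card ≤ n - 1 → Conn1 G U' → CW G U' W' → BP K G U' W' := by
  intro U' W' h1 h2 h3 h4 k hkK hk
  have hne : (U' \ W').Nonempty := by
    by_contra hcon
    exact hk (CovW.mono ⟨[], by simp, ⟨by simp, by simp⟩, by simp,
      fun x hx => absurd ⟨x, hx⟩ hcon⟩ (Nat.zero_le k))
  have hU' : 0 < U'.card := Finset.card_pos.2 (hne.mono Finset.sdiff_subset)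
  obtain ⟨I, i1, i2, i3, i4, -⟩ := ihp_get ih (m := k + 1) (b := 0) h1 (by omega) h3 h4
    (cwg_of_cwb (cwb_of_cw h4)) (fun l hl hcov => hk (hcov.mono (by omega)))
  exact ⟨I, i1, i2, i3, i4⟩

/-- a piece `z + X` -/
theorem pieceZP {G : SimpleGraph V} [DecidableRel G.Adj] {U W X : Finset V} {z : V} {b' m : ℕ}
    (ih : IHP G U.card) (hconn : Conn1 G U) (hX : Side G U z X) (hXn : X.card + 1 < U.card)
    (hCX : CW G (insert z X) (insert z (W ∩ X)))
    (hCg : CWg G (insert z X) (insert z (W ∩ X)) b')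
    (hm : ∀ l, l < m → ¬ CovW G (insert z X) (insert z (W ∩ X)) l) :
    ∃ J : Finset V, J ⊆ X ∧ (∀ v ∈ J, Good G U W v) ∧ G.IsIndepSet (J : Set V) ∧ J.card = m ∧
      (∀ M ⊆ insert z X, (∀ x ∈ M, ∀ y ∈ M, Near G (insert z X) (insert z (W ∩ X)) x y) →
        ∑ v ∈ J, dU G U v + max M.card 1 ≤ X.card + 1) ∧ Pc G U z X J (b' + 1) 1 := by
  have hcX : (insert z X).card = X.card + 1 := Finset.card_insert_of_notMem hX.znC
  obtain ⟨J, h1, h2, h3, h4, h5⟩ := ihp_get ih
    (Finset.insert_subset_insert z (Finset.inter_subset_right (s₁ := W) (s₂ := X))) (by omega)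
    (hX.conn_ins hconn) hCX hCg hm
  have hJX : J ⊆ X := by
    intro v hv
    have hg := h1 v hv
    rcases Finset.mem_insert.1 hg.mem with h | h
    · exact absurd (h ▸ Finset.mem_insert_self _ _) hg.nS
    · exact h
  have hsum : ∑ v ∈ J, dU G U v = ∑ v ∈ J, dU G (insert z X) v :=
    Finset.sum_congr rfl (fun v hv => (hX.dU_eq (hJX hv)).symm)
  refine ⟨J, hJX, fun v hv => hX.good_of hconn (h1 v hv) (hJX hv), h2, h3, ?_,
    h5.pcZ hconn hX hJX⟩
  intro M hM hMn
  have e1 := h4 M hM hMn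
  have e2 := h4 {z} (by simp) (by
    intro x hx y hy
    rw [Finset.mem_singleton] at hx hy
    rw [hx, hy]
    exact near_refl _)
  rw [Finset.card_singleton] at e2
  rw [hsum]
  omega

/-- one component of `U - z` -/
theorem compJP {G : SimpleGraph V} [DecidableRel G.Adj] {U W C E : Finset V} {z u₀ : V} {b m : ℕ}
    (ih : IHP G U.card) (hW : W ⊆ U) (hCW : CW G U W) (hCg : CWg G U W b)
    (hconn : Conn1 G U) (hC : Part G U z C) (hu : u₀ ∈ U)
    (hu' : u₀ ∉ insert z C) (hE : E ⊆ U \ W) (hEi : G.IsIndepSet (E : Set V))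
    (hEX : Disjoint E (insert z C)) (hE1 : 1 ≤ E.card)
    (hm : ∀ l, l < m → ¬ CovW G C (W ∩ C) l) :
    ∃ J : Finset V, J ⊆ C ∧ (∀ v ∈ J, Good G U W v) ∧ G.IsIndepSet (J : Set V) ∧ J.card = m ∧
      (∀ N ⊆ U, (∀ x ∈ N, ∀ y ∈ N, Near G U W x y) →
        ∑ v ∈ J, dU G U v + (N ∩ C).card ≤ C.card + m) ∧
      Pc G U z C J (b + E.card + (W \ C).card) (min (W ∩ C).card 1) := by
  have hCs : Side G U z C := hC.side
  have hcn : C.card + 1 < U.card := by
    have h1 : insert u₀ (insert z C) ⊆ U := Finset.insert_subset hu hCs.insH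
    have h2 := Finset.card_le_card h1
    rw [Finset.card_insert_of_notMem hu', Finset.card_insert_of_notMem hC.znC] at h2
    omega
  have hb : b + E.card + (W \ C).card - 1 + 1 = b + E.card + (W \ C).card := by omega
  rcases Nat.eq_zero_or_pos m with rfl | hpos
  · refine ⟨∅, by simp, by simp, by simp [SimpleGraph.IsIndepSet], rfl, ?_, Pc.empty⟩
    intro N _ _
    have := Finset.card_le_card (Finset.inter_subset_right (s₁ := N) (s₂ := C))
    simpa using this
  have hCZ : CW G (insert z C) (insert z (W ∩ C)) := cw_of_cwb (hCs.cwb hW (cwb_of_cw hCW) hu hu')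
  have hC0 : CW G C (W ∩ C) := hCs.cw0 hW hCW hu hu'
  by_cases hh : ∃ l, l < m ∧ CovW G (insert z C) (insert z (W ∩ C)) l
  · obtain ⟨l, hl, hcov⟩ := hh
    have h2 := two_nbrs hC.znC hcov (hm l hl)
    obtain ⟨J, j1, j2, j3, j4, j5⟩ := ihp_get ih Finset.inter_subset_right (by omega) hC.conn hC0
      (cwg_part0 (b' := b + E.card + (W \ C).card - 1) hC hconn hCg h2 hE hEi hEX (by omega)) hm
    have hJC : J ⊆ C := fun v hv => (j1 v hv).mem
    have hsum : ∑ v ∈ J, dU G U v ≤ ∑ v ∈ J, dU G C v + m := by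
      calc ∑ v ∈ J, dU G U v ≤ ∑ v ∈ J, (dU G C v + 1) :=
            Finset.sum_le_sum (fun v hv => hCs.dU_le_one (hJC hv))
        _ = _ := by rw [Finset.sum_add_distrib]; simp; omega
    refine ⟨J, hJC, fun v hv => good_erase hC hconn h2 (j1 v hv), j2, j3, ?_, ?_⟩
    · intro N hN hnear
      by_cases hne : (N ∩ C).Nonempty
      · obtain ⟨x₀, hx₀⟩ := hne
        have hx₀' := Finset.mem_inter.1 hx₀
        by_cases hNC : N ⊆ C
        · have := j4 N hNC (fun x hx y hy => near_erase hC hconn h2 (hNC hx) (hNC hy)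
            (hnear x hx y hy))
          rw [Finset.inter_eq_left.2 hNC]
          omega
        · exfalso
          obtain ⟨x₁, hx₁, hx₁C⟩ := Finset.not_subset.1 hNC
          have hnz : Near G (insert z C) (insert z (W ∩ C)) x₀ z :=
            near_part_side hCs hconn hx₀'.2 (hN hx₁) hx₁C (hnear x₀ hx₀'.1 x₁ hx₁)
          exact hm l hl (no_help hC.znC Finset.inter_subset_right hC.conn (hC.conn_ins hconn) hCZ
            hx₀'.2 hnz hcov)
      · rw [Finset.not_nonempty_iff_eq_empty] at hne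
        rw [hne]
        have := j4 ∅ (by simp) (by simp)
        simp only [Finset.card_empty] at this ⊢
        omega
    · rw [← hb]
      exact j5.pc0 hconn hC h2
  · push Not at hh
    obtain ⟨J, j1, j2, j3, j4, j5, j6⟩ := pieceZP ih hconn hCs hcn hCZ
      (cwg_side (b' := b + E.card + (W \ C).card - 1) hCs hconn hCg hE hEi hEX (by omega)) hh
    refine ⟨J, j1, j2, j3, j4, ?_, ?_⟩
    · intro N hN hnear
      by_cases hNC : N ⊆ insert z C
      · have h1 := j5 N hNC (fun x hx y hy => near_in_side hCs hconn (hNC hx) (hNC hy)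
          (hnear x hx y hy))
        have h2 := Finset.card_le_card (Finset.inter_subset_left (s₁ := N) (s₂ := C))
        omega
      · have := pieceN hconn hCs j5 hN hnear (Finset.not_subset.1 hNC)
        omega
    · rw [hb] at j6
      exact j6.mono le_rfl (by omega)

/-- a union of components of `U - z` -/
theorem sideJP {G : SimpleGraph V} [DecidableRel G.Adj] {U W : Finset V} {z u₀ : V} {b : ℕ}
    (ih : IHP G U.card) (hW : W ⊆ U) (hCW : CW G U W) (hCg : CWg G U W b)
    (hconn : Conn1 G U) (hu : u₀ ∈ U) : ∀ (r : ℕ) (B E : Finset V),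
    B.card ≤ r → Side G U z B → u₀ ∉ insert z B → E ⊆ U \ W → G.IsIndepSet (E : Set V) →
    Disjoint E (insert z B) → 1 ≤ E.card → ∀ m,
    (∀ l, l < m → ¬ CovW G B (W ∩ B) l) →
    ∃ J : Finset V, J ⊆ B ∧ (∀ v ∈ J, Good G U W v) ∧ G.IsIndepSet (J : Set V) ∧ J.card = m ∧
      (∀ N ⊆ U, (∀ x ∈ N, ∀ y ∈ N, Near G U W x y) →
        ∑ v ∈ J, dU G U v + (N ∩ B).card ≤ B.card + m) ∧
      Pc G U z B J (b + E.card + (W \ B).card) (min (W ∩ B).card 1) := by
  intro r
  induction r with
  | zero =>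
    intro B E hB0 hBs hu' hE hEi hEX hE1 m hm
    have hB : B = ∅ := Finset.card_eq_zero.1 (by omega)
    have hm0 : m = 0 := by
      by_contra h
      apply hm 0 (by omega)
      rw [hB]
      exact ⟨[], by simp, ⟨by simp, by simp⟩, by simp, fun x hx => by simp at hx⟩
    subst hm0
    refine ⟨∅, by simp, by simp, by simp [SimpleGraph.IsIndepSet], rfl, ?_, Pc.empty⟩
    intro N _ _
    rw [hB]
    simp
  | succ r ihr =>
    intro B E hBr hBs hu' hE hEi hEX hE1 m hm
    rcases B.eq_empty_or_nonempty with hB | ⟨x, hx⟩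
    · exact ihr B E (by rw [hB]; simp) hBs hu' hE hEi hEX hE1 m hm
    obtain ⟨C, hxC, hC⟩ := exists_part (G := G) hBs.zH (hBs.sub hx)
    have hCB : C ⊆ B := by
      intro y hy
      by_contra hyB
      obtain ⟨P, p1, p2, p3⟩ := seg_of_reach (hC.conn x hxC y hy) hxC
      have h := hBs.cross p1 (fun w hw => hC.subH (p3 w hw)) (Finset.mem_insert_of_mem hx)
        (fun h => by
          rcases Finset.mem_insert.1 h with h | h
          · exact hC.znC (h ▸ hy)
          · exact hyB h)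
      exact hC.znC (p3 z h)
    have hD : Side G U z (B \ C) := by
      refine ⟨hBs.zH, Finset.sdiff_subset.trans hBs.sub, ?_⟩
      intro w hw y hy hwy
      rw [Finset.mem_sdiff] at hw
      rcases hBs.cl w hw.1 y hy hwy with h | h
      · left
        refine Finset.mem_sdiff.2 ⟨h, fun hyC => ?_⟩
        rcases hC.cl y hyC w (hBs.subH hw.1) hwy.symm with h1 | h1
        · exact hw.2 h1
        · exact hBs.znC (h1 ▸ hw.1)
      · exact Or.inr h
    have hcB : C.card + (B \ C).card = B.card := by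
      rw [Finset.card_sdiff_of_subset hCB]
      have := Finset.card_le_card hCB
      omega
    have hCp : 1 ≤ C.card := Finset.card_pos.2 ⟨x, hxC⟩
    have huC : u₀ ∉ insert z C := fun h => hu' (Finset.insert_subset_insert _ hCB h)
    have huD : u₀ ∉ insert z (B \ C) := fun h =>
      hu' (Finset.insert_subset_insert _ Finset.sdiff_subset h)
    have hcU : B.card + 1 < U.card := by
      have h1 : insert u₀ (insert z B) ⊆ U := Finset.insert_subset hu hBs.insH
      have h2 := Finset.card_le_card h1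
      rw [Finset.card_insert_of_notMem hu', Finset.card_insert_of_notMem hBs.znC] at h2
      omega
    have hno : ∀ a ∈ C, ∀ b ∈ B \ C, ¬ G.Adj a b := by
      intro a ha b hb hab
      rcases hC.cl a ha b (hD.subH hb) hab with h1 | h1
      · exact (Finset.mem_sdiff.1 hb).2 h1
      · exact hD.znC (h1 ▸ hb)
    have hnoE : ∀ a ∈ B, ∀ e ∈ E, ¬ G.Adj a e := by
      intro a ha e he hadj
      have heX := Finset.disjoint_left.1 hEX he
      rcases hBs.cl a ha e (Finset.mem_sdiff.1 (hE he)).1 hadj with h1 | h1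
      · exact heX (Finset.mem_insert_of_mem h1)
      · exact heX (h1 ▸ Finset.mem_insert_self _ _)
    have hEB : Disjoint E B := Finset.disjoint_of_subset_right (Finset.subset_insert _ _) hEX
    have hEz : z ∉ E := fun h => Finset.disjoint_left.1 hEX h (Finset.mem_insert_self _ _)
    obtain ⟨c0, hc0, hc0'⟩ := exists_min_cov Finset.inter_subset_right
      (hC.side.cw0 hW hCW hu huC)
    obtain ⟨d0, hd0, hd0'⟩ := exists_min_cov Finset.inter_subset_right
      (hD.cw0 hW hCW hu huD)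
    have hmle : m ≤ c0 + d0 := by
      by_contra h
      push Not at h
      apply hm (c0 + d0) h
      have := CovW.union (Finset.disjoint_sdiff (s := C) (t := B)) hc0 hd0
      rw [Finset.union_sdiff_of_subset hCB, ← Finset.inter_union_distrib_left,
        Finset.union_sdiff_of_subset hCB] at this
      exact this
    -- outside sets
    obtain ⟨EC, g1, g2, g3, g4, -⟩ := sideJ (ihp_bp ih c0) hW hCW hconn hu C.card C le_rfl
      hC.side (by omega) huC c0 le_rfl hc0'
    obtain ⟨ED, k1, k2, k3, k4, -⟩ := sideJ (ihp_bp ih d0) hW hCW hconn hu (B \ C).card (B \ C)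
      le_rfl hD (by omega) huD d0 le_rfl hd0'
    have outs : ∀ X Y F : Finset V, X ⊆ B → Y ⊆ B → Disjoint X Y → F ⊆ Y →
        (∀ v ∈ F, Good G U W v) → G.IsIndepSet (F : Set V) →
        E ∪ F ⊆ U \ W ∧ G.IsIndepSet ((E ∪ F : Finset V) : Set V) ∧
          Disjoint (E ∪ F) (insert z X) ∧ (E ∪ F).card = E.card + F.card := by
      intro X Y F hXB hYB hXY hFY hFg hFi
      have hFB := hFY.trans hYB
      refine ⟨?_, ?_, ?_, ?_⟩
      · intro y hy
        rcases Finset.mem_union.1 hy with h | h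
        · exact hE h
        · exact Finset.mem_sdiff.2 ⟨(hFg y h).mem, (hFg y h).nS⟩
      · exact indep_union (G := G) hEi hFi (Finset.Subset.refl _) hFB
          (fun a ha c hc h => hnoE c hc a ha h.symm)
      · rw [Finset.disjoint_left]
        intro y hy hyX
        rcases Finset.mem_union.1 hy with h | h
        · exact Finset.disjoint_left.1 hEX h (Finset.insert_subset_insert _ hXB hyX)
        · rcases Finset.mem_insert.1 hyX with h1 | h1
          · exact hBs.znC (h1 ▸ hFB h)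
          · exact Finset.disjoint_left.1 hXY h1 (hFY h)
      · exact Finset.card_union_of_disjoint (Finset.disjoint_of_subset_right hFB hEB)
    obtain ⟨o1, o2, o3, o4⟩ := outs C (B \ C) ED hCB Finset.sdiff_subset Finset.disjoint_sdiff k1
      k2 k3
    obtain ⟨p1, p2, p3, p4⟩ := outs (B \ C) C EC Finset.sdiff_subset hCB
      Finset.disjoint_sdiff.symm g1 g2 g3
    obtain ⟨J₁, a1, a2, a3, a4, a5, a6⟩ := compJP ih hW hCW hCg hconn hC hu huC
      (m := min c0 m) o1 o2 o3 (by omega) (fun l hl => hc0' l (by omega))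
    obtain ⟨J₂, b1, b2, b3, b4, b5, b6⟩ := ihr (B \ C) (E ∪ EC) (by omega) hD huD p1 p2 p3
      (by omega) (m - min c0 m) (fun l hl => hd0' l (by omega))
    have hJJ : Disjoint J₁ J₂ := Finset.disjoint_of_subset_left a1
      (Finset.disjoint_of_subset_right b1 Finset.disjoint_sdiff)
    have hW1 : (W \ C).card = (W \ B).card + (W ∩ (B \ C)).card := by
      rw [← Finset.card_union_of_disjoint]
      · congr 1
        ext y
        simp only [Finset.mem_sdiff, Finset.mem_union, Finset.mem_inter]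
        have := @hCB y
        tauto
      · rw [Finset.disjoint_left]
        intro y hy hy'
        exact (Finset.mem_sdiff.1 hy).2 (Finset.mem_sdiff.1 (Finset.mem_inter.1 hy').2).1
    have hW2 : (W \ (B \ C)).card = (W \ B).card + (W ∩ C).card := by
      rw [← Finset.card_union_of_disjoint]
      · congr 1
        ext y
        simp only [Finset.mem_sdiff, Finset.mem_union, Finset.mem_inter]
        have := @hCB y
        tauto
      · rw [Finset.disjoint_left]
        intro y hy hy'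
        exact (Finset.mem_sdiff.1 hy).2 (hCB (Finset.mem_inter.1 hy').2)
    have hW3 : (W ∩ B).card = (W ∩ C).card + (W ∩ (B \ C)).card := by
      rw [← Finset.card_union_of_disjoint, ← Finset.inter_union_distrib_left,
        Finset.union_sdiff_of_subset hCB]
      exact Finset.disjoint_of_subset_left Finset.inter_subset_right
        (Finset.disjoint_of_subset_right Finset.inter_subset_right Finset.disjoint_sdiff)
    refine ⟨J₁ ∪ J₂, Finset.union_subset (a1.trans hCB) (b1.trans Finset.sdiff_subset), ?_,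
      indep_union a3 b3 a1 b1 hno, ?_, ?_, ?_⟩
    · intro v hv
      rcases Finset.mem_union.1 hv with h | h
      · exact a2 v h
      · exact b2 v h
    · rw [Finset.card_union_of_disjoint hJJ]
      omega
    · intro N hN hnear
      rw [Finset.sum_union hJJ]
      have e1 := a5 N hN hnear
      have e2 := b5 N hN hnear
      have e3 : (N ∩ B).card = (N ∩ C).card + (N ∩ (B \ C)).card := by
        rw [← Finset.card_union_of_disjoint, ← Finset.inter_union_distrib_left,
          Finset.union_sdiff_of_subset hCB]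
        exact Finset.disjoint_of_subset_left Finset.inter_subset_right
          (Finset.disjoint_of_subset_right Finset.inter_subset_right Finset.disjoint_sdiff)
      omega
    · have := Pc.union (B := b + E.card + (W \ B).card) (t := min (W ∩ B).card 1) a6 b6 hC.side hD
        Finset.disjoint_sdiff a1 b1 (by omega) (by omega) (by omega) (by omega) (by omega)
      rwa [Finset.union_sdiff_of_subset hCB] at this

/-- the package from two sides -/
theorem PP.of_sides {G : SimpleGraph V} {H S X Y J₁ J₂ : Finset V} {z : V}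
    {B₁ t₁ B₂ t₂ b : ℕ}
    (h1 : Pc G H z X J₁ B₁ t₁) (h2 : Pc G H z Y J₂ B₂ t₂) (hX : Side G H z X) (hY : Side G H z Y)
    (hXY : Disjoint X Y) (hJX : J₁ ⊆ X) (hJY : J₂ ⊆ Y)
    (c1 : b + 1 + min S.card 1 ≤ B₁ + t₁) (c2 : b + 1 + min S.card 1 ≤ B₂ + t₂)
    (c3 : b + 1 + min S.card 1 + J₂.card ≤ B₁ + t₁ ∨ b + 1 + min S.card 1 + J₁.card ≤ B₂ + t₂)
    (c4 : 2 * b + 2 * min S.card 1 + J₂.card + J₁.card ≤ B₁ + B₂ + 1) :
    PP G H S b (J₁ ∪ J₂) := by
  have hJJ : Disjoint J₁ J₂ := Finset.disjoint_of_subset_left hJX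
    (Finset.disjoint_of_subset_right hJY hXY)
  have hcard : ∀ M ⊆ J₁ ∪ J₂, M.card = (M ∩ J₁).card + (M ∩ J₂).card := by
    intro M hM
    rw [← Finset.card_union_of_disjoint, ← Finset.inter_union_distrib_left,
      Finset.inter_eq_left.2 hM]
    exact Finset.disjoint_of_subset_left Finset.inter_subset_right
      (Finset.disjoint_of_subset_right Finset.inter_subset_right hJJ)
  have hle1 : ∀ M : Finset V, (M ∩ J₁).card ≤ J₁.card := fun M =>
    Finset.card_le_card Finset.inter_subset_right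
  have hle2 : ∀ M : Finset V, (M ∩ J₂).card ≤ J₂.card := fun M =>
    Finset.card_le_card Finset.inter_subset_right
  have hne : ∀ M ⊆ J₁ ∪ J₂, M.Nonempty → (M ∩ J₁).Nonempty ∨ (M ∩ J₂).Nonempty := by
    intro M hM ⟨x, hx⟩
    rcases Finset.mem_union.1 (hM hx) with h | h
    · exact Or.inl ⟨x, Finset.mem_inter.2 ⟨hx, h⟩⟩
    · exact Or.inr ⟨x, Finset.mem_inter.2 ⟨hx, h⟩⟩
  have hz0 : ∀ A : Finset V, ¬ A.Nonempty → A.card = 0 := fun A h => by
    rw [Finset.not_nonempty_iff_eq_empty] at h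
    rw [h]
    rfl
  constructor
  · intro M hM hMne
    have hc := hcard M hM
    have l1 := hle1 M
    have l2 := hle2 M
    have use1 : (M ∩ J₁).Nonempty → b + 1 + M.card + min S.card 1 ≤ B₁ + (M ∩ J₁).card + t₁ →
        ∃ v ∈ M, ∀ x ∈ H, x ≠ v → Lnk G H v x (b + 1 + M.card + min S.card 1) := by
      intro h hn
      obtain ⟨v, hv, a1, a2⟩ := h1.q1 (M ∩ J₁) Finset.inter_subset_right h
      exact ⟨v, (Finset.mem_inter.1 hv).1, fun x hx hxv => (a1 x hx hxv).mono hn⟩
    have use2 : (M ∩ J₂).Nonempty → b + 1 + M.card + min S.card 1 ≤ B₂ + (M ∩ J₂).card + t₂ →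
        ∃ v ∈ M, ∀ x ∈ H, x ≠ v → Lnk G H v x (b + 1 + M.card + min S.card 1) := by
      intro h hn
      obtain ⟨v, hv, a1, a2⟩ := h2.q1 (M ∩ J₂) Finset.inter_subset_right h
      exact ⟨v, (Finset.mem_inter.1 hv).1, fun x hx hxv => (a1 x hx hxv).mono hn⟩
    by_cases d1 : (M ∩ J₁).Nonempty
    · by_cases d2 : (M ∩ J₂).Nonempty
      · rcases c3 with c3 | c3
        · exact use1 d1 (by omega)
        · exact use2 d2 (by omega)
      · have := hz0 _ d2
        exact use1 d1 (by omega)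
    · have := hz0 _ d1
      rcases hne M hM hMne with h | h
      · exact absurd h d1
      · exact use2 h (by omega)
  · -- the mixed case
    have mix : ∀ M ⊆ J₁ ∪ J₂, ∀ M' ⊆ J₁ ∪ J₂, (M ∩ J₁).Nonempty → (M' ∩ J₂).Nonempty →
        ∃ v ∈ M, ∃ v' ∈ M', v ≠ v' ∧
          Lnk G H v v' (2 * b + M.card + M'.card + 2 * min S.card 1) := by
      intro M hM M' hM' hn hn'
      obtain ⟨v, hv, a1, a2⟩ := h1.q1 (M ∩ J₁) Finset.inter_subset_right hn
      obtain ⟨v', hv', b1, b2⟩ := h2.q1 (M' ∩ J₂) Finset.inter_subset_right hn'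
      have hv1 := Finset.mem_inter.1 hv
      have hv2 := Finset.mem_inter.1 hv'
      have hc := hcard M hM
      have hc' := hcard M' hM'
      have l1 := hle2 M
      have l2 := hle1 M'
      refine ⟨v, hv1.1, v', hv2.1, ?_, (a2.join2 b2 hX.insH hY.insH hXY hX.znC).mono (by omega)⟩
      rintro rfl
      exact Finset.disjoint_left.1 hJJ hv1.2 hv2.2
    intro M hM M' hM' hMne hMne' heq
    by_cases d1 : (M ∩ J₁).Nonempty ∧ (M' ∩ J₂).Nonempty
    · exact mix M hM M' hM' d1.1 d1.2
    by_cases d2 : (M' ∩ J₁).Nonempty ∧ (M ∩ J₂).Nonempty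
    · obtain ⟨v, hv, v', hv', hvv, h⟩ := mix M' hM' M hM d2.1 d2.2
      exact ⟨v', hv', v, hv, hvv.symm, h.symm.mono (by omega)⟩
    have key : (M ⊆ J₁ ∧ M' ⊆ J₁) ∨ (M ⊆ J₂ ∧ M' ⊆ J₂) := by
      have emp : ∀ (A : Finset V), A ⊆ J₁ ∪ J₂ → ¬ (A ∩ J₂).Nonempty → A ⊆ J₁ := by
        intro A hA hn x hx
        rcases Finset.mem_union.1 (hA hx) with h | h
        · exact h
        · exact absurd ⟨x, Finset.mem_inter.2 ⟨hx, h⟩⟩ hn
      have emp' : ∀ (A : Finset V), A ⊆ J₁ ∪ J₂ → ¬ (A ∩ J₁).Nonempty → A ⊆ J₂ := by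
        intro A hA hn x hx
        rcases Finset.mem_union.1 (hA hx) with h | h
        · exact absurd ⟨x, Finset.mem_inter.2 ⟨hx, h⟩⟩ hn
        · exact h
      by_cases e1 : (M ∩ J₁).Nonempty
      · by_cases e2 : (M ∩ J₂).Nonempty
        · exfalso
          rcases hne M' hM' hMne' with h | h
          · exact d2 ⟨h, e2⟩
          · exact d1 ⟨e1, h⟩
        · left
          refine ⟨emp M hM e2, emp M' hM' (fun h => d1 ⟨e1, h⟩)⟩
      · right
        have e2 : (M ∩ J₂).Nonempty := by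
          rcases hne M hM hMne with h | h
          · exact absurd h e1
          · exact h
        exact ⟨emp' M hM e1, emp' M' hM' (fun h => d2 ⟨h, e2⟩)⟩
    rcases key with ⟨k1, k2⟩ | ⟨k1, k2⟩
    · obtain ⟨v, hv, v', hv', hvv, h⟩ := h1.q2 M k1 M' k2 hMne hMne' heq
      exact ⟨v, hv, v', hv', hvv, h.mono (by omega)⟩
    · obtain ⟨v, hv, v', hv', hvv, h⟩ := h2.q2 M k1 M' k2 hMne hMne' heq
      exact ⟨v, hv, v', hv', hvv, h.mono (by omega)⟩

end Pool.Agent.H18C
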