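import Pool.Agent.H18C.BPlus
import Pool.Agent.H72N.NearG

/-!
# The path package: definitions and the lemmas on pieces
-/

set_option autoImplicit false

namespace Pool.Agent.H18C

open List Pool.Agent.TF82 Pool.Agent.TFC Pool.Agent.TFB Pool.Agent.EG31 Pool.Agent.H62P
  Pool.Agent.H36C Pool.Agent.H72N

universe u

set_option linter.unusedSectionVars false
set_option linter.unusedVariables false

variable {V : Type u} [DecidableEq V]

/-- a path from `x` to `y` inside `H` with at least `L` vertices -/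
def Lnk (G : SimpleGraph V) (H : Finset V) (x y : V) (L : ℕ) : Prop :=
  ∃ Q : List V, Seg G Q x y ∧ Q.Nodup ∧ (∀ w ∈ Q, w ∈ H) ∧ L ≤ Q.length

theorem Lnk.mono {G : SimpleGraph V} {H : Finset V} {x y : V} {L L' : ℕ} (h : Lnk G H x y L)
    (hL : L' ≤ L) : Lnk G H x y L' := by
  obtain ⟨Q, h1, h2, h3, h4⟩ := h
  exact ⟨Q, h1, h2, h3, hL.trans h4⟩

theorem Lnk.sub {G : SimpleGraph V} {H H' : Finset V} {x y : V} {L : ℕ} (h : Lnk G H x y L)
    (hH : H ⊆ H') : Lnk G H' x y L := by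
  obtain ⟨Q, h1, h2, h3, h4⟩ := h
  exact ⟨Q, h1, h2, fun w hw => hH (h3 w hw), h4⟩

theorem Lnk.symm {G : SimpleGraph V} {H : Finset V} {x y : V} {L : ℕ} (h : Lnk G H x y L) :
    Lnk G H y x L := by
  obtain ⟨Q, h1, h2, h3, h4⟩ := h
  exact ⟨Q.reverse, h1.rev, by simpa using h2, by simpa using h3, by simpa using h4⟩

/-- joining at `z` -/
theorem Lnk.join {G : SimpleGraph V} {H X : Finset V} {v z x : V} {L₁ L₂ : ℕ}
    (h1 : Lnk G (insert z X) v z L₁) (hX : insert z X ⊆ H) {R : List V} (r1 : Seg G R z x)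
    (r2 : R.Nodup) (r3 : ∀ y ∈ R, y ∈ H) (r4 : ∀ y ∈ R, y ∉ X) (hL : L₂ ≤ R.length) :
    Lnk G H v x (L₁ + L₂ - 1) := by
  obtain ⟨Q, q1, q2, q3, q4⟩ := h1
  rcases R with _ | ⟨r, R⟩
  · have := r1.hd
    simp at this
  have hrz : r = z := by
    have := r1.hd
    simpa using this
  subst hrz
  rcases R with _ | ⟨r', R⟩
  · have hrx : r = x := by
      have := r1.lt
      simpa using this
    subst hrx
    simp only [List.length_singleton] at hL
    exact ⟨Q, q1, q2, fun w hw => hX (q3 w hw), by omega⟩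
  have hch := r1.ch
  rw [List.isChain_cons_cons] at hch
  have hR' : Seg G (r' :: R) r' x := ⟨hch.2, rfl, by
    have := r1.lt
    rwa [List.getLast?_cons_cons] at this⟩
  refine ⟨Q ++ (r' :: R), q1.append hR' hch.1, ?_, ?_, ?_⟩
  · rw [List.nodup_append]
    refine ⟨q2, (List.nodup_cons.1 r2).2, ?_⟩
    rintro y hy y' hy' rfl
    rcases Finset.mem_insert.1 (q3 y hy) with h1 | h1
    · rw [h1] at hy'
      exact (List.nodup_cons.1 r2).1 hy'
    · exact r4 y (List.mem_cons_of_mem _ hy') h1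
  · intro y hy
    rcases List.mem_append.1 hy with h1 | h1
    · exact hX (q3 y h1)
    · exact r3 y (List.mem_cons_of_mem _ h1)
  · rw [List.length_append]
    simp only [List.length_cons] at hL ⊢
    omega

/-- joining two paths at `z` -/
theorem Lnk.join2 {G : SimpleGraph V} {H X Y : Finset V} {v v' z : V} {L₁ L₂ : ℕ}
    (h1 : Lnk G (insert z X) v z L₁) (h2 : Lnk G (insert z Y) v' z L₂) (hX : insert z X ⊆ H)
    (hY : insert z Y ⊆ H) (hXY : Disjoint X Y) (hz : z ∉ X) : Lnk G H v v' (L₁ + L₂ - 1) := by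
  obtain ⟨R, r1, r2, r3, r4⟩ := h2.symm
  refine h1.join hX r1 r2 (fun y hy => hY (r3 y hy)) ?_ r4
  intro y hy hyX
  rcases Finset.mem_insert.1 (r3 y hy) with h | h
  · exact hz (h ▸ hyX)
  · exact Finset.disjoint_left.1 hXY hyX h

theorem Lnk.snoc {G : SimpleGraph V} {C : Finset V} {v x z : V} {L : ℕ}
    (h : Lnk G C v x L) (hxz : G.Adj x z) (hz : z ∉ C) : Lnk G (insert z C) v z (L + 1) := by
  obtain ⟨Q, h1, h2, h3, h4⟩ := h
  refine ⟨Q ++ [z], h1.append ⟨by simp, rfl, rfl⟩ hxz, ?_, ?_, ?_⟩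
  · rw [List.nodup_append]
    refine ⟨h2, by simp, ?_⟩
    rintro y hy y' hy' rfl
    rw [List.mem_singleton] at hy'
    exact hz (hy' ▸ h3 y hy)
  · intro w hw
    rcases List.mem_append.1 hw with h | h
    · exact Finset.mem_insert_of_mem (h3 w h)
    · rw [List.mem_singleton] at h
      rw [h]
      exact Finset.mem_insert_self _ _
  · rw [List.length_append, List.length_singleton]
    omega

/-- THE PATH PACKAGE of a set `I` of members in `(H, S)` with surplus `b` -/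
structure PP (G : SimpleGraph V) (H S : Finset V) (b : ℕ) (I : Finset V) : Prop where
  /-- every set `M` of members has a member with long paths to all vertices -/
  p1 : ∀ M ⊆ I, M.Nonempty → ∃ v ∈ M, ∀ x ∈ H, x ≠ v → Lnk G H v x (b + 1 + M.card + min S.card 1)
  /-- two sets of members are linked -/
  p2 : ∀ M ⊆ I, ∀ M' ⊆ I, M.Nonempty → M'.Nonempty → (M = M' → M.card ≠ 1) →
    ∃ v ∈ M, ∃ v' ∈ M', v ≠ v' ∧ Lnk G H v v' (2 * b + M.card + M'.card + 2 * min S.card 1)

/-- the package in the 2-connected case -/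
def BPP2 (K : ℕ) (G : SimpleGraph V) [DecidableRel G.Adj] (b : ℕ) (U W : Finset V) : Prop :=
  ∀ k, k < K → ¬ CovW G U W k → ∃ I : Finset V, I ⊆ U \ W ∧
    G.IsIndepSet (I : Set V) ∧ I.card = k + 1 ∧ ∑ v ∈ I, dU G U v + 1 ≤ U.card ∧ PP G U W b I

/-- the whole package -/
def BPP (K : ℕ) (G : SimpleGraph V) [DecidableRel G.Adj] (b : ℕ) (U W : Finset V) : Prop :=
  ∀ k, k < K → ¬ CovW G U W k → ∃ I : Finset V, (∀ v ∈ I, Good G U W v) ∧
    G.IsIndepSet (I : Set V) ∧ I.card = k + 1 ∧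
    (∀ N ⊆ U, (∀ x ∈ N, ∀ y ∈ N, Near G U W x y) → ∑ v ∈ I, dU G U v + N.card ≤ U.card) ∧
    PP G U W b I

/-- the paths of the members in a piece `X` at the vertex `z`, seen in `H` -/
structure Pc (G : SimpleGraph V) (H : Finset V) (z : V) (X J : Finset V) (B t : ℕ) : Prop where
  q1 : ∀ M ⊆ J, M.Nonempty → ∃ v ∈ M, (∀ x ∈ H, x ≠ v → Lnk G H v x (B + M.card + t)) ∧
    Lnk G (insert z X) v z (B + M.card + 1)
  q2 : ∀ M ⊆ J, ∀ M' ⊆ J, M.Nonempty → M'.Nonempty → (M = M' → M.card ≠ 1) →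
    ∃ v ∈ M, ∃ v' ∈ M', v ≠ v' ∧ Lnk G H v v' (2 * B + M.card + M'.card + 2 * t - 2)

theorem Pc.empty {G : SimpleGraph V} {H X : Finset V} {z : V} {B t : ℕ} : Pc G H z X ∅ B t := by
  constructor
  · intro M hM hne
    rw [Finset.subset_empty.1 hM] at hne
    simp at hne
  · intro M hM M' hM' hne
    rw [Finset.subset_empty.1 hM] at hne
    simp at hne

theorem Pc.mono {G : SimpleGraph V} {H X J : Finset V} {z : V} {B t B' t' : ℕ}
    (h : Pc G H z X J B t) (hB : B' ≤ B) (ht : t' ≤ t) : Pc G H z X J B' t' := by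
  constructor
  · intro M hM hne
    obtain ⟨v, hv, h1, h2⟩ := h.q1 M hM hne
    exact ⟨v, hv, fun x hx hxv => (h1 x hx hxv).mono (by omega), h2.mono (by omega)⟩
  · intro M hM M' hM' hne hne' heq
    obtain ⟨v, hv, v', hv', hvv, h1⟩ := h.q2 M hM M' hM' hne hne' heq
    exact ⟨v, hv, v', hv', hvv, h1.mono (by omega)⟩

/-- union of two pieces -/
theorem Pc.union {G : SimpleGraph V} {H X Y J₁ J₂ : Finset V} {z : V} {B₁ t₁ B₂ t₂ B t : ℕ}
    (h1 : Pc G H z X J₁ B₁ t₁) (h2 : Pc G H z Y J₂ B₂ t₂) (hX : Side G H z X) (hY : Side G H z Y)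
    (hXY : Disjoint X Y) (hJX : J₁ ⊆ X) (hJY : J₂ ⊆ Y) (e1 : B + J₂.card ≤ B₁)
    (e2 : B + J₁.card ≤ B₂) (e3 : B + J₂.card + t ≤ B₁ + t₁) (e4 : B + J₁.card + t ≤ B₂ + t₂)
    (e5 : t ≤ 1) : Pc G H z (X ∪ Y) (J₁ ∪ J₂) B t := by
  have hJJ : Disjoint J₁ J₂ := Finset.disjoint_of_subset_left hJX
    (Finset.disjoint_of_subset_right hJY hXY)
  have hcard : ∀ M ⊆ J₁ ∪ J₂, M.card = (M ∩ J₁).card + (M ∩ J₂).card := by
    intro M hM
    rw [← Finset.card_union_of_disjoint, ← Finset.inter_union_distrib_left,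
      Finset.inter_eq_left.2 hM]
    exact Finset.disjoint_of_subset_left Finset.inter_subset_right
      (Finset.disjoint_of_subset_right Finset.inter_subset_right hJJ)
  have hle1 : ∀ M : Finset V, (M ∩ J₁).card ≤ J₁.card := fun M =>
    Finset.card_le_card Finset.inter_subset_right
  have hle2 : ∀ M : Finset V, (M ∩ J₂).card ≤ J₂.card := fun M =>
    Finset.card_le_card Finset.inter_subset_right
  have hX' : insert z X ⊆ insert z (X ∪ Y) :=
    Finset.insert_subset_insert _ Finset.subset_union_left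
  have hY' : insert z Y ⊆ insert z (X ∪ Y) :=
    Finset.insert_subset_insert _ Finset.subset_union_right
  have hne : ∀ M ⊆ J₁ ∪ J₂, M.Nonempty → (M ∩ J₁).Nonempty ∨ (M ∩ J₂).Nonempty := by
    intro M hM ⟨x, hx⟩
    rcases Finset.mem_union.1 (hM hx) with h | h
    · exact Or.inl ⟨x, Finset.mem_inter.2 ⟨hx, h⟩⟩
    · exact Or.inr ⟨x, Finset.mem_inter.2 ⟨hx, h⟩⟩
  constructor
  · intro M hM hMne
    have hc := hcard M hM
    have l1 := hle1 M
    have l2 := hle2 M
    rcases hne M hM hMne with h | h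
    · obtain ⟨v, hv, a1, a2⟩ := h1.q1 (M ∩ J₁) Finset.inter_subset_right h
      exact ⟨v, (Finset.mem_inter.1 hv).1, fun x hx hxv => (a1 x hx hxv).mono (by omega),
        (a2.sub hX').mono (by omega)⟩
    · obtain ⟨v, hv, a1, a2⟩ := h2.q1 (M ∩ J₂) Finset.inter_subset_right h
      exact ⟨v, (Finset.mem_inter.1 hv).1, fun x hx hxv => (a1 x hx hxv).mono (by omega),
        (a2.sub hY').mono (by omega)⟩
  · -- the mixed case
    have mix : ∀ M ⊆ J₁ ∪ J₂, ∀ M' ⊆ J₁ ∪ J₂, (M ∩ J₁).Nonempty → (M' ∩ J₂).Nonempty →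
        ∃ v ∈ M, ∃ v' ∈ M', v ≠ v' ∧ Lnk G H v v' (2 * B + M.card + M'.card + 2 * t - 2) := by
      intro M hM M' hM' hn hn'
      obtain ⟨v, hv, a1, a2⟩ := h1.q1 (M ∩ J₁) Finset.inter_subset_right hn
      obtain ⟨v', hv', b1, b2⟩ := h2.q1 (M' ∩ J₂) Finset.inter_subset_right hn'
      have hv1 := Finset.mem_inter.1 hv
      have hv2 := Finset.mem_inter.1 hv'
      have hc := hcard M hM
      have hc' := hcard M' hM'
      have l1 := hle2 M
      have l2 := hle1 M'
      refine ⟨v, hv1.1, v', hv2.1, ?_, (a2.join2 b2 hX.insH hY.insH hXY hX.znC).mono (by omega)⟩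
      rintro rfl
      exact Finset.disjoint_left.1 hJJ hv1.2 hv2.2
    intro M hM M' hM' hMne hMne' heq
    by_cases c1 : (M ∩ J₁).Nonempty ∧ (M' ∩ J₂).Nonempty
    · exact mix M hM M' hM' c1.1 c1.2
    by_cases c2 : (M' ∩ J₁).Nonempty ∧ (M ∩ J₂).Nonempty
    · obtain ⟨v, hv, v', hv', hvv, h⟩ := mix M' hM' M hM c2.1 c2.2
      exact ⟨v', hv', v, hv, hvv.symm, h.symm.mono (by omega)⟩
    have key : (M ⊆ J₁ ∧ M' ⊆ J₁) ∨ (M ⊆ J₂ ∧ M' ⊆ J₂) := by
      have emp : ∀ (A C : Finset V), A ⊆ J₁ ∪ J₂ → ¬ (A ∩ J₂).Nonempty → A ⊆ J₁ := by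
        intro A C hA hn x hx
        rcases Finset.mem_union.1 (hA hx) with h | h
        · exact h
        · exact absurd ⟨x, Finset.mem_inter.2 ⟨hx, h⟩⟩ hn
      have emp' : ∀ (A C : Finset V), A ⊆ J₁ ∪ J₂ → ¬ (A ∩ J₁).Nonempty → A ⊆ J₂ := by
        intro A C hA hn x hx
        rcases Finset.mem_union.1 (hA hx) with h | h
        · exact absurd ⟨x, Finset.mem_inter.2 ⟨hx, h⟩⟩ hn
        · exact h
      by_cases d1 : (M ∩ J₁).Nonempty
      · by_cases d2 : (M ∩ J₂).Nonempty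
        · exfalso
          rcases hne M' hM' hMne' with h | h
          · exact c2 ⟨h, d2⟩
          · exact c1 ⟨d1, h⟩
        · left
          refine ⟨emp M ∅ hM d2, emp M' ∅ hM' (fun h => c1 ⟨d1, h⟩)⟩
      · right
        have d2 : (M ∩ J₂).Nonempty := by
          rcases hne M hM hMne with h | h
          · exact absurd h d1
          · exact h
        exact ⟨emp' M ∅ hM d1, emp' M' ∅ hM' (fun h => c2 ⟨h, d2⟩)⟩
    rcases key with ⟨k1, k2⟩ | ⟨k1, k2⟩
    · obtain ⟨v, hv, v', hv', hvv, h⟩ := h1.q2 M k1 M' k2 hMne hMne' heq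
      exact ⟨v, hv, v', hv', hvv, h.mono (by omega)⟩
    · obtain ⟨v, hv, v', hv', hvv, h⟩ := h2.q2 M k1 M' k2 hMne hMne' heq
      exact ⟨v, hv, v', hv', hvv, h.mono (by omega)⟩

/-- a piece with the cut vertex -/
theorem PP.pcZ {G : SimpleGraph V} {H S X J : Finset V} {z : V} {b : ℕ}
    (h : PP G (insert z X) (insert z (S ∩ X)) b J) (hH : Conn1 G H) (hX : Side G H z X)
    (hJ : J ⊆ X) : Pc G H z X J (b + 1) 1 := by
  have hs : min (insert z (S ∩ X)).card 1 = 1 := by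
    have : 0 < (insert z (S ∩ X)).card := Finset.card_pos.2 ⟨z, Finset.mem_insert_self _ _⟩
    omega
  constructor
  · intro M hM hne
    obtain ⟨v, hv, h1⟩ := h.p1 M hM hne
    rw [hs] at h1
    have hvX : v ∈ X := hJ (hM hv)
    have hzv : z ≠ v := fun he => hX.znC (he ▸ hvX)
    have hz1 := h1 z (Finset.mem_insert_self _ _) hzv
    refine ⟨v, hv, ?_, hz1.mono (by omega)⟩
    intro x hx hxv
    by_cases hxX : x ∈ insert z X
    · exact ((h1 x hxX hxv).sub hX.insH).mono (by omega)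
    · obtain ⟨R, r1, r2, r3, r4⟩ := hX.out_reach hH hx
        (fun he => hxX (Finset.mem_insert_of_mem he))
      exact (hz1.join hX.insH r1 r2 r3 r4 r1.pos).mono (by omega)
  · intro M hM M' hM' hne hne' heq
    obtain ⟨v, hv, v', hv', hvv, h1⟩ := h.p2 M hM M' hM' hne hne' heq
    rw [hs] at h1
    exact ⟨v, hv, v', hv', hvv, (h1.sub hX.insH).mono (by omega)⟩

/-- a useful component without the cut vertex -/
theorem PP.pc0 {G : SimpleGraph V} {H S C J : Finset V} {z : V} {b : ℕ}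
    (h : PP G C (S ∩ C) b J) (hH : Conn1 G H) (hC : Part G H z C)
    (h2 : ∀ v, ∃ y ∈ C, y ≠ v ∧ G.Adj z y) : Pc G H z C J (b + 1) (min (S ∩ C).card 1) := by
  constructor
  · intro M hM hne
    obtain ⟨v, hv, h1⟩ := h.p1 M hM hne
    obtain ⟨y, hy, hyv, hzy⟩ := h2 v
    have hz1 := (h1 y hy hyv).snoc hzy.symm hC.znC
    refine ⟨v, hv, ?_, hz1.mono (by omega)⟩
    intro x hx hxv
    by_cases hxC : x ∈ C
    · exact ((h1 x hxC hxv).sub hC.subH).mono (by omega)
    · obtain ⟨R, r1, r2, r3, r4⟩ := hC.out_reach hH hx hxC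
      exact (hz1.join hC.insH r1 r2 r3 r4 r1.pos).mono (by omega)
  · intro M hM M' hM' hne hne' heq
    obtain ⟨v, hv, v', hv', hvv, h1⟩ := h.p2 M hM M' hM' hne hne' heq
    exact ⟨v, hv, v', hv', hvv, (h1.sub hC.subH).mono (by omega)⟩

/-- outside independent sets raise the surplus -/
theorem cwg_side {G : SimpleGraph V} [DecidableRel G.Adj] {H S X E : Finset V} {z : V} {b b' : ℕ}
    (h : Side G H z X) (hH : Conn1 G H) (hC : CWg G H S b) (hE : E ⊆ H \ S)
    (hEi : G.IsIndepSet (E : Set V)) (hEX : Disjoint E (insert z X))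
    (hb : b' + 1 ≤ b + E.card + (S \ X).card) :
    CWg G (insert z X) (insert z (S ∩ X)) b' := by
  intro I hI hind v hv hvc
  have hIC : ∀ y ∈ I, y ∈ X ∧ y ∉ S := by
    intro y hy
    have := hI hy
    rw [Finset.mem_sdiff] at this
    have hyz : y ≠ z := fun he => this.2 (he ▸ Finset.mem_insert_self _ _)
    have hyC : y ∈ X := by
      rcases Finset.mem_insert.1 this.1 with h1 | h1
      · exact absurd h1 hyz
      · exact h1
    exact ⟨hyC, fun hyS => this.2 (Finset.mem_insert_of_mem (Finset.mem_inter.2 ⟨hyS, hyC⟩))⟩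
  have hnc : Conn1 G (H.erase v) := (h.good_of hH (S := S) ⟨Finset.mem_insert_of_mem (hIC v hv).1,
    (Finset.mem_sdiff.1 (hI hv)).2, hvc⟩ (hIC v hv).1).nc
  rw [h.dU_eq (hIC v hv).1]
  have hno : ∀ a ∈ X, ∀ e ∈ E, ¬ G.Adj a e := by
    intro a ha e he hadj
    have heX := Finset.disjoint_left.1 hEX he
    rcases h.cl a ha e (Finset.mem_sdiff.1 (hE he)).1 hadj with h1 | h1
    · exact heX (Finset.mem_insert_of_mem h1)
    · exact heX (h1 ▸ Finset.mem_insert_self _ _)
  have hIE : Disjoint I E := by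
    rw [Finset.disjoint_left]
    intro y hy he
    exact Finset.disjoint_left.1 hEX he (Finset.mem_insert_of_mem (hIC y hy).1)
  have h1 := hC (I ∪ E) (by
    intro y hy
    rcases Finset.mem_union.1 hy with h3 | h3
    · exact Finset.mem_sdiff.2 ⟨h.subH (hIC y h3).1, (hIC y h3).2⟩
    · exact hE h3) (indep_union hind hEi (fun y hy => (hIC y hy).1) (Finset.Subset.refl _) hno) v
    (Finset.mem_union_left _ hv) hnc
  rw [Finset.card_union_of_disjoint hIE] at h1
  have h2 : (insert z (S ∩ X)).card ≤ (S ∩ X).card + 1 := Finset.card_insert_le _ _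
  have h3 : (S ∩ X).card + (S \ X).card = S.card := Finset.card_inter_add_card_sdiff _ _
  omega

/-- the same for a useful component without the cut vertex -/
theorem cwg_part0 {G : SimpleGraph V} [DecidableRel G.Adj] {H S C E : Finset V} {z : V} {b b' : ℕ}
    (h : Part G H z C) (hH : Conn1 G H) (hC : CWg G H S b)
    (h2 : ∀ v, ∃ y ∈ C, y ≠ v ∧ G.Adj z y) (hE : E ⊆ H \ S)
    (hEi : G.IsIndepSet (E : Set V)) (hEX : Disjoint E (insert z C))
    (hb : b' + 1 ≤ b + E.card + (S \ C).card) :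
    CWg G C (S ∩ C) b' := by
  intro I hI hind v hv hvc
  have hIC : ∀ y ∈ I, y ∈ C ∧ y ∉ S := by
    intro y hy
    have := Finset.mem_sdiff.1 (hI hy)
    exact ⟨this.1, fun hyS => this.2 (Finset.mem_inter.2 ⟨hyS, this.1⟩)⟩
  have hnc : Conn1 G (H.erase v) := (good_erase h hH h2 (S := S) ⟨(hIC v hv).1,
    (Finset.mem_sdiff.1 (hI hv)).2, hvc⟩).nc
  have hno : ∀ a ∈ C, ∀ e ∈ E, ¬ G.Adj a e := by
    intro a ha e he hadj
    have heX := Finset.disjoint_left.1 hEX he
    rcases h.cl a ha e (Finset.mem_sdiff.1 (hE he)).1 hadj with h1 | h1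
    · exact heX (Finset.mem_insert_of_mem h1)
    · exact heX (h1 ▸ Finset.mem_insert_self _ _)
  have hIE : Disjoint I E := by
    rw [Finset.disjoint_left]
    intro y hy he
    exact Finset.disjoint_left.1 hEX he (Finset.mem_insert_of_mem (hIC y hy).1)
  have h1 := hC (I ∪ E) (by
    intro y hy
    rcases Finset.mem_union.1 hy with h3 | h3
    · exact Finset.mem_sdiff.2 ⟨h.subH (hIC y h3).1, (hIC y h3).2⟩
    · exact hE h3) (indep_union hind hEi (fun y hy => (hIC y hy).1) (Finset.Subset.refl _) hno) v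
    (Finset.mem_union_left _ hv) hnc
  rw [Finset.card_union_of_disjoint hIE] at h1
  have h4 := h.side.dU_le_one (hIC v hv).1
  have h3 : (S ∩ C).card + (S \ C).card = S.card := Finset.card_inter_add_card_sdiff _ _
  omega

end Pool.Agent.H18C
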