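import Pool.Agent.H18C.Base
import Pool.Agent.H62P.Steps

/-!
# Sides of a cut vertex (unions of components)
-/

set_option autoImplicit false

namespace Pool.Agent.H18C

open List Pool.Agent.TF82 Pool.Agent.TFC Pool.Agent.EG31

universe u

set_option linter.unusedSectionVars false
set_option linter.unusedVariables false

variable {V : Type u} [DecidableEq V]

/-- a union of components of `H - z` -/
structure Side (G : SimpleGraph V) (H : Finset V) (z : V) (C : Finset V) : Prop where
  zH : z ∈ H
  sub : C ⊆ H.erase z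
  cl : ∀ w ∈ C, ∀ y ∈ H, G.Adj w y → y ∈ C ∨ y = z

namespace Side

variable {G : SimpleGraph V} {H : Finset V} {z : V} {C : Finset V}

theorem subH (h : Side G H z C) : C ⊆ H := h.sub.trans (Finset.erase_subset _ _)

theorem znC (h : Side G H z C) : z ∉ C := fun hz => (Finset.mem_erase.1 (h.sub hz)).1 rfl

theorem insH (h : Side G H z C) : insert z C ⊆ H := by
  intro y hy
  rcases Finset.mem_insert.1 hy with rfl | hy
  · exact h.zH
  · exact h.subH hy

theorem cross (h : Side G H z C) {P : List V} {a b : V} (hP : Seg G P a b)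
    (hPH : ∀ y ∈ P, y ∈ H) (ha : a ∈ insert z C) (hb : b ∉ insert z C) : z ∈ P := by
  by_contra hz
  have hPz : ∀ y ∈ P, y ∈ H.erase z := fun y hy =>
    Finset.mem_erase.2 ⟨fun he => hz (he ▸ hy), hPH y hy⟩
  have haP : a ∈ P := List.mem_of_mem_head? hP.hd
  have haC : a ∈ C := by
    rcases Finset.mem_insert.1 ha with rfl | ha
    · exact absurd haP hz
    · exact ha
  have hbC : b ∈ C := by
    refine closed_reach (S := H.erase z) ?_ (reach_of_seg hP hPz) haC
    intro w hw y hy hwy
    rcases h.cl w hw y (Finset.mem_of_mem_erase hy) hwy with h1 | h1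
    · exact h1
    · exact absurd h1 (Finset.mem_erase.1 hy).1
  exact hb (Finset.mem_insert_of_mem hbC)

theorem path_in (h : Side G H z C) {P : List V} {a b : V} (hP : Seg G P a b) (hn : P.Nodup)
    (hPH : ∀ y ∈ P, y ∈ H) (ha : a ∈ insert z C) (hb : b ∈ insert z C) :
    ∀ y ∈ P, y ∈ insert z C := by
  intro u hu
  by_contra hcon
  obtain ⟨A, B, rfl⟩ := List.append_of_mem hu
  have hzu : z ≠ u := fun he => hcon (he ▸ Finset.mem_insert_self _ _)
  have h1 : z ∈ A ++ [u] := h.cross (seg_prefix hP) (by
    intro y hy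
    apply hPH
    simp at hy ⊢
    tauto) ha hcon
  have h2 : z ∈ (u :: B).reverse := h.cross (seg_suffix hP).rev (by
    intro y hy
    apply hPH
    simp at hy ⊢
    tauto) hb hcon
  have h1' : z ∈ A := by
    simp at h1
    tauto
  have h2' : z ∈ u :: B := List.mem_reverse.1 h2
  exact (List.nodup_append.1 hn).2.2 z h1' z h2' rfl

/-- walks of `H - w` between vertices of `C + z` -/
theorem reach_in (h : Side G H z C) {w a b : V} (hr : Reach G (H.erase w) a b)
    (ha : a ∈ insert z C) (hb : b ∈ insert z C) (haw : a ≠ w) :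
    Reach G ((insert z C).erase w) a b := by
  obtain ⟨q, h1, h2, h3⟩ := seg_of_reach hr (Finset.mem_erase.2 ⟨haw, h.insH ha⟩)
  have h4 := h.path_in h1 h2 (fun y hy => Finset.mem_of_mem_erase (h3 y hy)) ha hb
  exact reach_of_seg h1 (fun y hy => Finset.mem_erase.2 ⟨(Finset.mem_erase.1 (h3 y hy)).1, h4 y hy⟩)

theorem conn_ins (h : Side G H z C) (hH : Conn1 G H) : Conn1 G (insert z C) := by
  intro a ha b hb
  obtain ⟨q, h1, h2, h3⟩ := seg_of_reach (hH a (h.insH ha) b (h.insH hb)) (h.insH ha)
  exact reach_of_seg h1 (h.path_in h1 h2 h3 ha hb)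

/-- good vertices of `H` in `C` are good in `C + z` -/
theorem good (h : Side G H z C) {S : Finset V} {v : V} (hv : Good G H S v) (hvC : v ∈ C) :
    Good G (insert z C) (insert z (S ∩ C)) v := by
  refine ⟨Finset.mem_insert_of_mem hvC, ?_, ?_⟩
  · intro hcon
    rcases Finset.mem_insert.1 hcon with rfl | h1
    · exact h.znC hvC
    · exact hv.nS (Finset.mem_inter.1 h1).1
  · intro a ha b hb
    rw [Finset.mem_erase] at ha hb
    exact h.reach_in (hv.nc a (Finset.mem_erase.2 ⟨ha.1, h.insH ha.2⟩) b
      (Finset.mem_erase.2 ⟨hb.1, h.insH hb.2⟩)) ha.2 hb.2 ha.1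

/-- a vertex outside can reach `z` without meeting `C` -/
theorem out_reach (h : Side G H z C) (hH : Conn1 G H) {a : V} (ha : a ∈ H) (haC : a ∉ C) :
    ∃ q, Seg G q z a ∧ q.Nodup ∧ (∀ y ∈ q, y ∈ H) ∧ ∀ y ∈ q, y ∉ C := by
  obtain ⟨q, h1, h2, h3⟩ := seg_of_reach (hH z h.zH a ha) h.zH
  refine ⟨q, h1, h2, h3, ?_⟩
  intro u hu huC
  obtain ⟨A, B, rfl⟩ := List.append_of_mem hu
  have hA : z ∈ A ++ [u] := List.mem_of_mem_head? (seg_prefix h1).hd
  have hzA : z ∈ A := by
    have hzu : z ≠ u := fun he => h.znC (he ▸ huC)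
    simp at hA
    tauto
  have hzB : z ∉ u :: B := fun hz => (List.nodup_append.1 h2).2.2 z hzA z hz rfl
  have hB := seg_suffix h1
  have haC' : a ∈ C := by
    refine closed_reach (S := H.erase z) ?_ (reach_of_seg hB ?_) huC
    · intro w hw y hy hwy
      rcases h.cl w hw y (Finset.mem_of_mem_erase hy) hwy with h4 | h4
      · exact h4
      · exact absurd h4 (Finset.mem_erase.1 hy).1
    · intro y hy
      exact Finset.mem_erase.2 ⟨fun he => hzB (he ▸ hy), h3 y (List.mem_append_right _ hy)⟩
  exact haC haC'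

/-- good vertices of `C + z` in `C` are good in `H` -/
theorem good_of (h : Side G H z C) (hH : Conn1 G H) {S : Finset V} {v : V}
    (hv : Good G (insert z C) (insert z (S ∩ C)) v) (hvC : v ∈ C) : Good G H S v := by
  have hzv : z ≠ v := fun he => h.znC (he ▸ hvC)
  refine ⟨h.subH hvC, fun hS => hv.nS (Finset.mem_insert_of_mem (Finset.mem_inter.2 ⟨hS, hvC⟩)), ?_⟩
  have key : ∀ a ∈ H.erase v, Reach G (H.erase v) z a := by
    intro a ha
    rw [Finset.mem_erase] at ha
    by_cases haC : a ∈ C
    · exact (hv.nc z (Finset.mem_erase.2 ⟨hzv, Finset.mem_insert_self _ _⟩) a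
        (Finset.mem_erase.2 ⟨ha.1, Finset.mem_insert_of_mem haC⟩)).mono
        (Finset.erase_subset_erase _ h.insH)
    · obtain ⟨q, h1, h2, h3, h4⟩ := h.out_reach hH ha.2 haC
      exact reach_of_seg h1 (fun y hy => Finset.mem_erase.2
        ⟨fun he => h4 y hy (he ▸ hvC), h3 y hy⟩)
  intro a ha b hb
  exact Relation.ReflTransGen.trans (Reach.symm (key a ha)) (key b hb)

theorem dU_eq (h : Side G H z C) [DecidableRel G.Adj] {v : V} (hv : v ∈ C) :
    dU G (insert z C) v = dU G H v := by
  unfold dU
  congr 1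
  ext y
  simp only [Finset.mem_filter]
  constructor
  · rintro ⟨h1, h2⟩
    exact ⟨h.insH h1, h2⟩
  · rintro ⟨h1, h2⟩
    refine ⟨?_, h2⟩
    rcases h.cl v hv y h1 h2 with h3 | h3
    · exact Finset.mem_insert_of_mem h3
    · rw [h3]
      exact Finset.mem_insert_self _ _

theorem cwb (h : Side G H z C) [DecidableRel G.Adj] {S : Finset V} {b : ℕ}
    (hS : S ⊆ H) (hC : CWb G H S b) {u₀ : V} (hu : u₀ ∈ H) (hu' : u₀ ∉ insert z C) :
    CWb G (insert z C) (insert z (S ∩ C)) b := by
  intro I hI hind v hv
  have hIC : ∀ y ∈ I, y ∈ C ∧ y ∉ S := by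
    intro y hy
    have := hI hy
    rw [Finset.mem_sdiff] at this
    have hyz : y ≠ z := fun he => this.2 (he ▸ Finset.mem_insert_self _ _)
    have hyC : y ∈ C := by
      rcases Finset.mem_insert.1 this.1 with h1 | h1
      · exact absurd h1 hyz
      · exact h1
    exact ⟨hyC, fun hyS => this.2 (Finset.mem_insert_of_mem (Finset.mem_inter.2 ⟨hyS, hyC⟩))⟩
  rw [h.dU_eq (hIC v hv).1]
  have huC : u₀ ∉ C := fun he => hu' (Finset.mem_insert_of_mem he)
  by_cases huS : u₀ ∈ S
  · have h1 := hC I (fun y hy => Finset.mem_sdiff.2 ⟨h.subH (hIC y hy).1, (hIC y hy).2⟩) hind v hv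
    have h2 : (insert z (S ∩ C)).card ≤ S.card := by
      refine (Finset.card_insert_le _ _).trans ?_
      have : (S ∩ C).card < S.card := by
        apply Finset.card_lt_card
        refine ⟨Finset.inter_subset_left, fun hcon => ?_⟩
        exact huC (Finset.mem_inter.1 (hcon huS)).2
      omega
    omega
  · have huI : u₀ ∉ I := fun he => huC (hIC _ he).1
    have hnadj : ∀ y ∈ I, ¬ G.Adj y u₀ := by
      intro y hy hadj
      rcases h.cl y (hIC y hy).1 u₀ hu hadj with h3 | h3
      · exact huC h3
      · exact hu' (h3 ▸ Finset.mem_insert_self _ _)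
    have h1 := hC (insert u₀ I) (by
      intro y hy
      rcases Finset.mem_insert.1 hy with rfl | hy
      · exact Finset.mem_sdiff.2 ⟨hu, huS⟩
      · exact Finset.mem_sdiff.2 ⟨h.subH (hIC y hy).1, (hIC y hy).2⟩) (by
      rw [Finset.coe_insert]
      intro a ha c hc hac hadj
      rcases ha with rfl | ha
      · rcases hc with rfl | hc
        · exact hac rfl
        · exact hnadj c hc hadj.symm
      · rcases hc with rfl | hc
        · exact hnadj a ha hadj
        · exact hind ha hc hac hadj) v (Finset.mem_insert_of_mem hv)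
    rw [Finset.card_insert_of_notMem huI] at h1
    have h2 : (insert z (S ∩ C)).card ≤ S.card + 1 :=
      (Finset.card_insert_le _ _).trans (Nat.succ_le_succ (Finset.card_le_card
        Finset.inter_subset_left))
    omega

/-- separation in `C + z` gives separation in `H` -/
theorem sep_of (h : Side G H z C) {w v x : V} (hv : v ∈ C) (hwv : w ≠ v) (hx : x ∈ insert z C)
    (hs : SepV G (insert z C) w v x) : SepV G H w v x := by
  rcases hs with hs | hs
  · exact Or.inl hs
  · right
    intro hr
    exact hs (h.reach_in hr (Finset.mem_insert_of_mem hv) hx hwv.symm)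

/-- a vertex outside `C + z` is separated by `z` -/
theorem sep_out (h : Side G H z C) {v x : V} (hv : v ∈ C) (hx : x ∉ C) :
    SepV G H z v x := by
  right
  intro hr
  apply hx
  refine closed_reach (S := H.erase z) ?_ hr hv
  intro w hw y hy hwy
  rcases h.cl w hw y (Finset.mem_of_mem_erase hy) hwy with h4 | h4
  · exact h4
  · exact absurd h4 (Finset.mem_erase.1 hy).1

/-- a vertex outside is separated from `v` by whatever separates `v` from `z` -/
theorem sep_through (h : Side G H z C) {w v x : V} (hv : v ∈ C) (hwv : w ≠ v) (hx : x ∉ insert z C)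
    (hs : SepV G (insert z C) w v z) : SepV G H w v x := by
  rcases hs with hs | hs
  · rw [← hs]
    exact h.sep_out hv (fun he => hx (Finset.mem_insert_of_mem he))
  · right
    intro hr
    -- the walk meets `z`
    rcases reach_split z hr with h1 | h1
    · rcases h.sep_out hv (fun he => hx (Finset.mem_insert_of_mem he)) with h2 | h2
      · exact hx (h2 ▸ Finset.mem_insert_self _ _)
      · exact h2 (h1.mono (by
          intro y hy
          rw [Finset.mem_erase, Finset.mem_erase] at hy
          exact Finset.mem_erase.2 ⟨hy.1, hy.2.2⟩))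
    · exact hs (h.reach_in h1 (Finset.mem_insert_of_mem hv) (Finset.mem_insert_self _ _) hwv.symm)

end Side

/-- `x` in the part, `x'` outside: near in `H` implies near to `z` in the part -/
theorem near_part_side {G : SimpleGraph V} {H S C : Finset V} {z : V} (h : Side G H z C)
    (hH : Conn1 G H) {x x' : V} (hx : x ∈ C) (hx' : x' ∈ H) (hx'C : x' ∉ C)
    (hn : Near G H S x x') : Near G (insert z C) (insert z (S ∩ C)) x z := by
  intro hne v hv
  have hvz : v ≠ z := fun he => hv.nS (he ▸ Finset.mem_insert_self _ _)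
  have hvC : v ∈ C := by
    rcases Finset.mem_insert.1 hv.mem with h1 | h1
    · exact absurd h1 hvz
    · exact h1
  obtain ⟨w, hw, hwv, s1, s2⟩ := hn (fun he => hx'C (he ▸ hx)) v (h.good_of hH hv hvC)
  obtain ⟨q, q1, q2, q3, q4⟩ := h.out_reach hH hx' hx'C
  by_cases hwz : w = z
  · subst hwz
    refine ⟨w, Finset.mem_insert_self _ _, hwv, ?_, Or.inl rfl⟩
    rcases s1 with s1 | s1
    · exact Or.inl s1
    · exact Or.inr (fun hr => s1 (hr.mono (Finset.erase_subset_erase _ h.insH)))
  by_cases hwC : w ∈ C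
  · refine ⟨w, Finset.mem_insert_of_mem hwC, hwv, ?_, ?_⟩
    · rcases s1 with s1 | s1
      · exact Or.inl s1
      · exact Or.inr (fun hr => s1 (hr.mono (Finset.erase_subset_erase _ h.insH)))
    · right
      intro hr
      rcases s2 with s2 | s2
      · exact hx'C (s2 ▸ hwC)
      · refine s2 (Relation.ReflTransGen.trans (hr.mono (Finset.erase_subset_erase _ h.insH))
          (reach_of_seg q1 ?_))
        intro y hy
        exact Finset.mem_erase.2 ⟨fun he => q4 y hy (he ▸ hwC), q3 y hy⟩
  · -- `w` outside the part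
    exfalso
    have hwI : w ∉ insert z C := by
      intro he
      rcases Finset.mem_insert.1 he with h1 | h1
      · exact hwz h1
      · exact hwC h1
    rcases s1 with s1 | s1
    · exact hwC (s1 ▸ hx)
    · refine s1 (((h.conn_ins hH) v (Finset.mem_insert_of_mem hvC) x
        (Finset.mem_insert_of_mem hx)).mono ?_)
      intro y hy
      exact Finset.mem_erase.2 ⟨fun he => hwI (he ▸ hy), h.insH hy⟩

/-- near vertices of a part are near in the part -/
theorem near_in_side {G : SimpleGraph V} {H S C : Finset V} {z : V} (h : Side G H z C)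
    (hH : Conn1 G H) {x x' : V} (hx : x ∈ insert z C) (hx' : x' ∈ insert z C)
    (hn : Near G H S x x') : Near G (insert z C) (insert z (S ∩ C)) x x' := by
  intro hne v hv
  have hvz : v ≠ z := fun he => hv.nS (he ▸ Finset.mem_insert_self _ _)
  have hvC : v ∈ C := by
    rcases Finset.mem_insert.1 hv.mem with h1 | h1
    · exact absurd h1 hvz
    · exact h1
  obtain ⟨w, hw, hwv, s1, s2⟩ := hn hne v (h.good_of hH hv hvC)
  by_cases hwI : w ∈ insert z C
  · refine ⟨w, hwI, hwv, ?_, ?_⟩
    · rcases s1 with s1 | s1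
      · exact Or.inl s1
      · exact Or.inr (fun hr => s1 (hr.mono (Finset.erase_subset_erase _ h.insH)))
    · rcases s2 with s2 | s2
      · exact Or.inl s2
      · exact Or.inr (fun hr => s2 (hr.mono (Finset.erase_subset_erase _ h.insH)))
  · exfalso
    have key : ∀ y ∈ insert z C, Reach G (H.erase w) v y := fun y hy =>
      ((h.conn_ins hH) v (Finset.mem_insert_of_mem hvC) y hy).mono (by
        intro y hy
        exact Finset.mem_erase.2 ⟨fun he => hwI (he ▸ hy), h.insH hy⟩)
    rcases s1 with s1 | s1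
    · exact hwI (s1 ▸ hx)
    · exact s1 (key x hx)


end Pool.Agent.H18C
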